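import Mathlib

set_option autoImplicit false
set_option linter.unusedSectionVars false

namespace Pool.Agent.P.MP_a84a61_al

open Finset

/-- the sign attached to a class mod 2 -/
def sgn (e : ZMod 2) : ℤ := if e = 0 then 1 else -1

@[simp] lemma sgn_zero : sgn 0 = 1 := rfl
@[simp] lemma sgn_one : sgn 1 = -1 := rfl
lemma sgn_add (a b : ZMod 2) : sgn (a + b) = sgn a * sgn b := by revert a b; decide
lemma sgn_mul_self (a : ZMod 2) : sgn a * sgn a = 1 := by revert a; decide
lemma cast_sgn (a : ZMod 2) : ((sgn a : ℤ) : ZMod 2) = 1 := by revert a; decide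
lemma z2_cases (a : ZMod 2) : a = 0 ∨ a = 1 := by revert a; decide
lemma z2_add_self (a : ZMod 2) : a + a = 0 := by revert a; decide

/-- generalized dihedral group of an abelian group -/
@[ext] structure Dih (A : Type) where
  a : A
  e : ZMod 2

namespace Dih
variable {A B : Type} [AddCommGroup A] [AddCommGroup B]

instance : Mul (Dih A) := ⟨fun x y => ⟨x.a + sgn x.e • y.a, x.e + y.e⟩⟩
instance : One (Dih A) := ⟨⟨0, 0⟩⟩
instance : Inv (Dih A) := ⟨fun x => ⟨-(sgn x.e • x.a), x.e⟩⟩

@[simp] lemma mul_a (x y : Dih A) : (x * y).a = x.a + sgn x.e • y.a := rfl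
@[simp] lemma mul_e (x y : Dih A) : (x * y).e = x.e + y.e := rfl
@[simp] lemma one_a : (1 : Dih A).a = 0 := rfl
@[simp] lemma one_e : (1 : Dih A).e = 0 := rfl
@[simp] lemma inv_a (x : Dih A) : (x⁻¹).a = -(sgn x.e • x.a) := rfl
@[simp] lemma inv_e (x : Dih A) : (x⁻¹).e = x.e := rfl

instance : Group (Dih A) := Group.ofLeftAxioms
  (fun x y z => by
    ext
    · simp [sgn_add, mul_smul, add_assoc]
    · simp [add_assoc])
  (fun x => by ext <;> simp)
  (fun x => by
    ext
    · simp
    · simp [z2_add_self])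

/-- functoriality -/
def map (L : A →+ B) : Dih A →* Dih B where
  toFun x := ⟨L x.a, x.e⟩
  map_one' := by ext <;> simp
  map_mul' x y := by ext <;> simp

@[simp] lemma map_a (L : A →+ B) (x : Dih A) : (map L x).a = L x.a := rfl
@[simp] lemma map_e (L : A →+ B) (x : Dih A) : (map L x).e = x.e := rfl

lemma inv_of_e_one (x : Dih A) (h : x.e = 1) : x⁻¹ = x := by
  ext <;> simp [h]

lemma inv_a_of_e_zero (x : Dih A) (h : x.e = 0) : (x⁻¹).a = -x.a := by
  simp [h]

end Dih

section rho
variable {ι : Type} [DecidableEq ι]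

/-- the dihedral component of type `ψ` -/
def rho (ψ : ι → ZMod 2) : FreeGroup ι →* Dih (ι → ℤ) :=
  FreeGroup.lift fun j => ⟨Pi.single j 1, ψ j⟩

@[simp] lemma rho_of (ψ : ι → ZMod 2) (j : ι) :
    rho ψ (FreeGroup.of j) = ⟨Pi.single j 1, ψ j⟩ := by simp [rho]

/-- the class mod 2 -/
def cl (g : FreeGroup ι) : ι → ZMod 2 := fun j => ((rho 0 g).a j : ZMod 2)

lemma cast_mul_a (x y : Dih (ι → ℤ)) (j : ι) :
    (((x * y).a j : ℤ) : ZMod 2) = (x.a j : ZMod 2) + (y.a j : ZMod 2) := by
  simp [cast_sgn]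

lemma cast_inv_a (x : Dih (ι → ℤ)) (j : ι) :
    (((x⁻¹).a j : ℤ) : ZMod 2) = (x.a j : ZMod 2) := by
  simp [cast_sgn, ZMod.neg_eq_self_mod_two]

lemma cast_a (ψ : ι → ZMod 2) (g : FreeGroup ι) (j : ι) :
    (((rho ψ g).a j : ℤ) : ZMod 2) = cl g j := by
  unfold cl
  induction g using FreeGroup.induction_on with
  | C1 => simp
  | of x => simp
  | inv_of x h => rw [map_inv, map_inv, cast_inv_a, cast_inv_a]; exact h
  | mul x y hx hy => rw [map_mul, map_mul, cast_mul_a, cast_mul_a, hx, hy]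

lemma cl_mul (g h : FreeGroup ι) : cl (g * h) = cl g + cl h := by
  funext j; simp only [cl, map_mul, cast_mul_a, Pi.add_apply]

lemma cl_inv (g : FreeGroup ι) : cl g⁻¹ = cl g := by
  funext j; simp only [cl, map_inv, cast_inv_a]

@[simp] lemma cl_one : cl (1 : FreeGroup ι) = 0 := by
  funext j; simp [cl]

lemma cl_eq_of_rho {ψ : ι → ZMod 2} {g h : FreeGroup ι} (H : rho ψ g = rho ψ h) : cl g = cl h := by
  funext j; rw [← cast_a ψ, ← cast_a ψ, H]

variable [Fintype ι]

lemma rho_e (ψ : ι → ZMod 2) (g : FreeGroup ι) : (rho ψ g).e = ∑ j, ψ j * cl g j := by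
  induction g using FreeGroup.induction_on with
  | C1 => simp
  | of x =>
    have : ∀ j, cl (FreeGroup.of x) j = if j = x then 1 else 0 := by
      intro j; simp only [cl, rho_of]; split_ifs with h
      · subst h; simp
      · simp [h]
    simp [this]
  | inv_of x h => rw [map_inv, Dih.inv_e, cl_inv]; exact h
  | mul x y hx hy =>
    rw [map_mul, Dih.mul_e, hx, hy, cl_mul, ← sum_add_distrib]
    simp [mul_add]

/-- the linear map through which a homomorphism to a dihedral group factors -/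
def lin {A : Type} [AddCommGroup A] (b : ι → A) : (ι → ℤ) →+ A where
  toFun x := ∑ j, x j • b j
  map_zero' := by simp
  map_add' x y := by simp [add_smul, sum_add_distrib]

lemma factor {A : Type} [AddCommGroup A] (τ : FreeGroup ι →* Dih A) (g : FreeGroup ι) :
    τ g = Dih.map (lin fun j => (τ (FreeGroup.of j)).a)
      (rho (fun j => (τ (FreeGroup.of j)).e) g) := by
  have : τ = (Dih.map (lin fun j => (τ (FreeGroup.of j)).a)).comp
      (rho (fun j => (τ (FreeGroup.of j)).e)) := by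
    ext j
    · simp [lin, Pi.single_apply]
    · simp
  exact DFunLike.congr_fun this g

end rho

/-! digits -/

def dbl (x : ZMod 2) : ZMod 4 := if x = 0 then 0 else 2
def lo (c : ZMod 4) : ZMod 2 := if c = 0 ∨ c = 2 then 0 else 1
def hi (c : ZMod 4) : ZMod 2 := if c = 2 ∨ c = 3 then 1 else 0
/-- second binary digit -/
def d1 (x : ℤ) : ZMod 2 := hi (x : ZMod 4)

lemma dbl_add (x y : ZMod 2) : dbl (x + y) = dbl x + dbl y := by revert x y; decide
lemma dbl_mul (c c' : ZMod 4) (x y : ZMod 2) :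
    (c + dbl x) * (c' + dbl y) = c * c' + dbl (lo c' * x + lo c * y) := by
  revert c c' x y; decide
lemma hi_add_dbl (c : ZMod 4) (x : ZMod 2) : hi (c + dbl x) = hi c + x := by revert c x; decide
lemma lo_add_dbl (c : ZMod 4) (x : ZMod 2) : lo (c + dbl x) = lo c := by revert c x; decide
lemma hi_neg (c : ZMod 4) : hi (-c) = hi c + lo c := by revert c; decide
lemma hi_two_mul (c : ZMod 4) : hi (2 * c) = lo c := by revert c; decide
lemma lo_cast (x : ℤ) : lo (x : ZMod 4) = (x : ZMod 2) := by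
  have h : ∀ c : ZMod 4, lo c = ZMod.castHom (by norm_num : 2 ∣ 4) (ZMod 2) c := by decide
  rw [h, map_intCast]

lemma d1_neg (x : ℤ) : d1 (-x) = d1 x + (x : ZMod 2) := by
  simp only [d1, Int.cast_neg, hi_neg, lo_cast]

lemma d1_two_mul (x : ℤ) : d1 (2 * x) = (x : ZMod 2) := by
  simp only [d1, Int.cast_mul, Int.cast_ofNat, hi_two_mul, lo_cast]

/-- integer functions which are, mod 4, a constant plus twice an additive function -/
def QQ (X : Type) [AddCommGroup X] : Subring (X → ℤ) where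
  carrier := {u | ∃ (c : ZMod 4) (l : X →+ ZMod 2), ∀ x, (u x : ZMod 4) = c + dbl (l x)}
  mul_mem' := by
    rintro u v ⟨c, l, h⟩ ⟨c', l', h'⟩
    refine ⟨c * c', (AddMonoidHom.mulLeft (lo c')).comp l + (AddMonoidHom.mulLeft (lo c)).comp l',
      fun x => ?_⟩
    simp [h, h', dbl_mul]
  one_mem' := ⟨1, 0, fun x => by simp [dbl]⟩
  add_mem' := by
    rintro u v ⟨c, l, h⟩ ⟨c', l', h'⟩
    refine ⟨c + c', l + l', fun x => ?_⟩
    simp only [Pi.add_apply, Int.cast_add, h, h', AddMonoidHom.add_apply, dbl_add]; ring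
  zero_mem' := ⟨0, 0, fun x => by simp [dbl]⟩
  neg_mem' := by
    rintro u ⟨c, l, h⟩
    refine ⟨-c, l, fun x => ?_⟩
    have : ∀ y : ZMod 2, -dbl y = dbl y := by decide
    simp only [Pi.neg_apply, Int.cast_neg, h, neg_add, this]

section QQ
variable {X Y : Type} [AddCommGroup X] [AddCommGroup Y]

lemma QQ.const (n : ℤ) : (fun _ : X => n) ∈ QQ X := ⟨n, 0, fun x => by simp [dbl]⟩

lemma QQ.comp {u : Y → ℤ} (hu : u ∈ QQ Y) (f : X →+ Y) : (fun x => u (f x)) ∈ QQ X := by
  obtain ⟨c, l, h⟩ := hu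
  exact ⟨c, l.comp f, fun x => by simp [h]⟩

lemma QQ.sgn (l : X →+ ZMod 2) : (fun x => sgn (l x)) ∈ QQ X := by
  refine ⟨1, l, fun x => ?_⟩
  have : ∀ y : ZMod 2, ((MP_a84a61_al.sgn y : ℤ) : ZMod 4) = 1 + dbl y := by decide
  exact this _

lemma QQ.d1_aff {u : X → ℤ} (hu : u ∈ QQ X) :
    ∃ (c : ZMod 2) (l : X →+ ZMod 2), ∀ x, d1 (u x) = c + l x := by
  obtain ⟨c, l, h⟩ := hu
  exact ⟨hi c, l, fun x => by simp [d1, h, hi_add_dbl]⟩

lemma QQ.d0_const {u : X → ℤ} (hu : u ∈ QQ X) : ∃ c : ZMod 2, ∀ x, (u x : ZMod 2) = c := by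
  obtain ⟨c, l, h⟩ := hu
  exact ⟨lo c, fun x => by rw [← lo_cast, h, lo_add_dbl]⟩

end QQ

section
variable {ι : Type} [DecidableEq ι] [Fintype ι]

/-- the sign character of `g` as an additive function of the component -/
def eps (g : FreeGroup ι) : (ι → ZMod 2) →+ ZMod 2 where
  toFun ψ := (rho ψ g).e
  map_zero' := by simp [rho_e]
  map_add' x y := by simp [rho_e, add_mul, sum_add_distrib]

@[simp] lemma eps_apply (g : FreeGroup ι) (ψ : ι → ZMod 2) : eps g ψ = (rho ψ g).e := rfl

lemma rho_QQ (g : FreeGroup ι) (j : ι) : (fun ψ => (rho ψ g).a j) ∈ QQ (ι → ZMod 2) := by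
  induction g using FreeGroup.induction_on with
  | C1 => simpa using QQ.const 0
  | of x => simpa using QQ.const _
  | inv_of x h =>
    have := (QQ _).neg_mem ((QQ _).mul_mem (QQ.sgn (eps (FreeGroup.of x))) h)
    convert this using 1
    funext ψ; simp
  | mul x y hx hy =>
    have := (QQ _).add_mem hx ((QQ _).mul_mem (QQ.sgn (eps x)) hy)
    convert this using 1
    funext ψ; simp

end

/-! sums over cubes -/

lemma sum_zero_of_lt {X U : Type} [AddCommGroup X] [Fintype X] [AddCommGroup U] [Fintype U]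
    (hX : ∀ x : X, x + x = 0) (Λ : X →+ U) (hni : ¬ Function.Injective Λ) (G : U → ZMod 2) :
    ∑ x, G (Λ x) = 0 := by
  rw [injective_iff_map_eq_zero] at hni
  push Not at hni
  obtain ⟨η, hη, hη0⟩ := hni
  refine Finset.sum_involution (fun x _ => x + η) (fun x _ => ?_) (fun x _ _ => ?_)
    (fun x _ => mem_univ _) (fun x _ => ?_)
  · simp [hη, z2_add_self]
  · simpa using hη0
  · simp [add_assoc, hX]

lemma sum_zero_of_card {X U : Type} [AddCommGroup X] [Fintype X] [AddCommGroup U] [Fintype U]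
    (hX : ∀ x : X, x + x = 0) (Λ : X →+ U) (hc : Fintype.card U < Fintype.card X)
    (G : U → ZMod 2) : ∑ x, G (Λ x) = 0 :=
  sum_zero_of_lt hX Λ (fun h => absurd (Fintype.card_le_of_injective _ h) (by omega)) G

lemma sum_shift {X U : Type} [AddCommGroup X] [Fintype X] [AddCommGroup U] [Fintype U]
    (hX : ∀ x : X, x + x = 0) (Λ : X →+ U) (hc : Fintype.card U ≤ Fintype.card X)
    (G : U → ZMod 2) (c : U) : ∑ x, G (Λ x + c) = ∑ x, G (Λ x) := by
  by_cases h : Function.Injective Λ
  · have hb : Function.Bijective Λ :=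
      (Fintype.bijective_iff_injective_and_card _).2
        ⟨h, le_antisymm (Fintype.card_le_of_injective _ h) hc⟩
    rw [hb.sum_comp (fun y => G (y + c)), hb.sum_comp G]
    exact Equiv.sum_comp (Equiv.addRight c) G
  · rw [sum_zero_of_lt hX Λ h G, sum_zero_of_lt hX Λ h (fun y => G (y + c))]

lemma cube_add_self {ι : Type} (x : ι → ZMod 2) : x + x = 0 := by
  funext j; simp [z2_add_self]

/-- an orientation of the pairs of distinct elements -/
noncomputable def ori {X : Type} (x y : X) : ZMod 2 := by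
  classical exact if WellOrderingRel x y then 1 else 0

lemma ori_add {X : Type} [DecidableEq X] (x y : X) :
    ori x y + ori y x = if x = y then 0 else 1 := by
  unfold ori
  rcases trichotomous_of (WellOrderingRel (α := X)) x y with h | h | h
  · have h1 : ¬ WellOrderingRel y x := asymm_of _ h
    have h2 : x ≠ y := fun e => by subst e; exact h1 h
    simp [h, h1, h2]
  · subst h; simp [z2_add_self]
  · have h1 : ¬ WellOrderingRel x y := asymm_of _ h
    have h2 : x ≠ y := fun e => by subst e; exact h1 h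
    simp [h, h1, h2]

lemma ori_self {X : Type} (x : X) : ori x x = 0 := by
  unfold ori
  simp [irrefl_of (WellOrderingRel (α := X)) x]

lemma sum_sym_zero {X M : Type} [Fintype X] [AddCommGroup M]
    (Z : X → X → M) (hs : ∀ x y, Z x y + Z y x = 0) (hd : ∀ x, Z x x = 0) :
    ∑ x, ∑ y, Z x y = 0 := by
  classical
  rw [← Fintype.sum_prod_type']
  refine Finset.sum_involution (fun p _ => (p.2, p.1)) (fun p _ => hs _ _) (fun p _ hp => ?_)
    (fun p _ => mem_univ _) (fun p _ => rfl)
  intro h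
  have h1 : p.2 = p.1 := congrArg Prod.fst h
  apply hp
  rw [h1]; exact hd _

end Pool.Agent.P.MP_a84a61_al
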