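import Pool.Agent.P.MP_a84a61_al.Basic

set_option autoImplicit false
set_option linter.unusedSectionVars false
set_option linter.dupNamespace false
set_option linter.unusedSimpArgs false

namespace Pool.Agent.P.MP_a84a61_al

open Finset

/-- data for a Heisenberg type extension with an acting group, in characteristic two -/
structure ExtData (R T V C : Type) [CommRing R] [Group T] [AddCommGroup V] [Module R V]
    [AddCommGroup C] [Module R C] where
  actV : T →* Module.End R V
  actC : T →* Module.End R C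
  β : V →ₗ[R] V →ₗ[R] C
  equiv : ∀ g v w, actC g (β v w) = β (actV g v) (actV g w)
  two : (2 : R) = 0

section
variable {R T V C : Type} [CommRing R] [Group T] [AddCommGroup V] [Module R V]
    [AddCommGroup C] [Module R C]

lemma add_self_of_two (M : Type) [AddCommGroup M] [Module R M] (h : (2 : R) = 0) (x : M) :
    x + x = 0 := by
  rw [← two_smul R x, h, zero_smul]

/-- the extension group -/
@[ext] structure Ext (D : ExtData R T V C) where
  v : V
  c : C
  g : T

namespace Ext
variable {D : ExtData R T V C}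

lemma vv (D : ExtData R T V C) (x : V) : x + x = 0 := add_self_of_two V D.two x
lemma cc (D : ExtData R T V C) (x : C) : x + x = 0 := add_self_of_two C D.two x

instance : Mul (Ext D) :=
  ⟨fun x y => ⟨x.v + D.actV x.g y.v, x.c + D.actC x.g y.c + D.β x.v (D.actV x.g y.v), x.g * y.g⟩⟩
instance : One (Ext D) := ⟨⟨0, 0, 1⟩⟩
instance : Inv (Ext D) :=
  ⟨fun x => ⟨D.actV x.g⁻¹ x.v, D.actC x.g⁻¹ (x.c + D.β x.v x.v), x.g⁻¹⟩⟩

@[simp] lemma mul_v (x y : Ext D) : (x * y).v = x.v + D.actV x.g y.v := rfl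
@[simp] lemma mul_c (x y : Ext D) :
    (x * y).c = x.c + D.actC x.g y.c + D.β x.v (D.actV x.g y.v) := rfl
@[simp] lemma mul_g (x y : Ext D) : (x * y).g = x.g * y.g := rfl
@[simp] lemma one_v : (1 : Ext D).v = 0 := rfl
@[simp] lemma one_c : (1 : Ext D).c = 0 := rfl
@[simp] lemma one_g : (1 : Ext D).g = 1 := rfl
@[simp] lemma inv_v (x : Ext D) : (x⁻¹).v = D.actV x.g⁻¹ x.v := rfl
@[simp] lemma inv_c (x : Ext D) : (x⁻¹).c = D.actC x.g⁻¹ (x.c + D.β x.v x.v) := rfl
@[simp] lemma inv_g (x : Ext D) : (x⁻¹).g = x.g⁻¹ := rfl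

lemma actV_mul (D : ExtData R T V C) (g h : T) (v : V) :
    D.actV (g * h) v = D.actV g (D.actV h v) := by rw [map_mul]; rfl
lemma actC_mul (D : ExtData R T V C) (g h : T) (v : C) :
    D.actC (g * h) v = D.actC g (D.actC h v) := by rw [map_mul]; rfl
lemma actV_one (D : ExtData R T V C) (v : V) : D.actV 1 v = v := by rw [map_one]; rfl
lemma actC_one (D : ExtData R T V C) (v : C) : D.actC 1 v = v := by rw [map_one]; rfl

instance : Group (Ext D) := Group.ofLeftAxioms
  (fun x y z => by
    ext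
    · simp [actV_mul, add_assoc]
    · simp only [mul_c, mul_v, mul_g, actV_mul, actC_mul, map_add, LinearMap.add_apply, D.equiv]
      abel
    · simp [mul_assoc])
  (fun x => by ext <;> simp)
  (fun x => by
    ext
    · simp [vv D]
    · simp only [mul_c, inv_c, inv_g, inv_v, map_add, D.equiv, one_c]
      have h1 := cc D (D.actC x.g⁻¹ x.c)
      have h2 := cc D (D.β (D.actV x.g⁻¹ x.v) (D.actV x.g⁻¹ x.v))
      linear_combination (norm := abel) h1 + h2
    · simp)

/-- projection to the acting group -/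
def top (D : ExtData R T V C) : Ext D →* T where
  toFun x := x.g
  map_one' := rfl
  map_mul' _ _ := rfl

lemma lift_g {ι : Type} (f : ι → Ext D) (w : FreeGroup ι) :
    (FreeGroup.lift f w).g = FreeGroup.lift (fun j => (f j).g) w := by
  have : (top D).comp (FreeGroup.lift f) = FreeGroup.lift (fun j => (f j).g) := by
    ext j; simp [top]
  exact DFunLike.congr_fun this w

lemma conj_v (t x : Ext D) (hx : x.g = 1) : (t * x * t⁻¹).v = D.actV t.g x.v := by
  simp only [mul_v, mul_g, inv_v, hx, mul_one, ← actV_mul, mul_inv_cancel, actV_one]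
  have := vv D t.v
  linear_combination (norm := abel) this

lemma comm_eq (x y : Ext D) (hx : x.g = 1) (hy : y.g = 1) :
    x * y * x⁻¹ * y⁻¹ = ⟨0, D.β x.v y.v + D.β y.v x.v, 1⟩ := by
  ext
  · simp only [mul_v, mul_g, inv_v, inv_g, hx, hy, mul_one, inv_one, actV_one]
    have h1 := vv D x.v
    have h2 := vv D y.v
    linear_combination (norm := abel) h1 + h2
  · simp only [mul_c, mul_v, mul_g, inv_v, inv_c, inv_g, hx, hy, mul_one, inv_one, actV_one,
      actC_one, map_add, LinearMap.add_apply]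
    have h1 := cc D x.c
    have h2 := cc D y.c
    have h3 := cc D (D.β x.v x.v)
    have h4 := cc D (D.β y.v y.v)
    have h5 := cc D (D.β x.v y.v)
    linear_combination (norm := abel) h1 + h2 + h3 + h4 + h5
  · simp [hx, hy]

lemma list_prod (l : List (Ext D)) (h : ∀ x ∈ l, x.g = 1) :
    l.prod.g = 1 ∧ l.prod.v = (l.map fun x => x.v).sum := by
  induction l with
  | nil => simp
  | cons a l ih =>
    have ha := h a (by simp)
    obtain ⟨h1, h2⟩ := ih (fun x hx => h x (by simp [hx]))
    simp [ha, h1, h2]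

/-- the faithful linear representation -/
def rep (D : ExtData R T V C) : Ext D →* Module.End R (R × V × C) where
  toFun x :=
    { toFun := fun y => (y.1, y.1 • x.v + D.actV x.g y.2.1,
        y.1 • x.c + D.β x.v (D.actV x.g y.2.1) + D.actC x.g y.2.2)
      map_add' := fun y z => by
        ext
        · simp
        · simp only [Prod.fst_add, Prod.snd_add, add_smul, map_add]; abel
        · simp only [Prod.fst_add, Prod.snd_add, add_smul, map_add]; abel
      map_smul' := fun r y => by
        ext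
        · simp
        · simp [mul_smul]
        · simp [mul_smul] }
  map_one' := by
    apply LinearMap.ext; intro y
    ext <;> simp
  map_mul' x x' := by
    apply LinearMap.ext; intro y
    ext
    · simp
    · simp only [mul_v, mul_g, actV_mul, LinearMap.coe_mk, AddHom.coe_mk, Module.End.mul_apply,
        map_add, map_smul, smul_add]
      abel
    · simp only [mul_v, mul_c, mul_g, actV_mul, actC_mul, LinearMap.coe_mk, AddHom.coe_mk,
        Module.End.mul_apply, map_add, map_smul, smul_add, LinearMap.add_apply, D.equiv]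
      abel

lemma rep_injective (D : ExtData R T V C) (h : ∀ g, D.actV g = 1 → g = 1) :
    Function.Injective (rep D) := by
  rw [injective_iff_map_eq_one]
  intro x hx
  have h1 := DFunLike.congr_fun hx (1, 0, 0)
  have hv : x.v = 0 := by simpa [rep] using congrArg (fun y => y.2.1) h1
  have hc : x.c = 0 := by simpa [rep] using congrArg (fun y => y.2.2) h1
  have hg : x.g = 1 := by
    apply h
    apply LinearMap.ext; intro v
    simpa [rep] using congrArg (fun y => y.2.1) (DFunLike.congr_fun hx (0, v, 0))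
  ext <;> simp [hv, hc, hg]

/-- the normal subgroup attached to a submodule in the radical -/
def nsub (D : ExtData R T V C) (J : Submodule R V) (N : Subgroup T)
    (hJ : ∀ g, ∀ x ∈ J, D.actV g x ∈ J) (hβ : ∀ x ∈ J, ∀ y, D.β x y = 0) : Subgroup (Ext D) where
  carrier := {x | x.v ∈ J ∧ x.c = 0 ∧ x.g ∈ N}
  mul_mem' := by
    rintro x y ⟨h1, h2, h3⟩ ⟨h4, h5, h6⟩
    exact ⟨J.add_mem h1 (hJ _ _ h4), by simp [h2, h5, hβ _ h1], N.mul_mem h3 h6⟩
  one_mem' := ⟨J.zero_mem, rfl, N.one_mem⟩
  inv_mem' := by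
    rintro x ⟨h1, h2, h3⟩
    exact ⟨hJ _ _ h1, by simp [h2, hβ _ h1], N.inv_mem h3⟩

lemma nsub_normal (D : ExtData R T V C) (J : Submodule R V) (N : Subgroup T) [hN : N.Normal]
    (hJ : ∀ g, ∀ x ∈ J, D.actV g x ∈ J) (hβ : ∀ x ∈ J, ∀ y, D.β x y = 0)
    (hβ' : ∀ x ∈ J, ∀ y, D.β y x = 0) (hNV : ∀ g ∈ N, ∀ y, D.actV g y + y ∈ J)
    (hNC : ∀ g ∈ N, ∀ c, D.actC g c = c) : (nsub D J N hJ hβ).Normal := by
  constructor
  rintro x ⟨h1, h2, h3⟩ t
  have hg : t.g * x.g * t.g⁻¹ ∈ N := hN.conj_mem _ h3 _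
  refine ⟨?_, ?_, hg⟩
  · simp only [mul_v, mul_g, inv_v, ← actV_mul]
    have := J.add_mem (hJ t.g _ h1) (hNV _ hg t.v)
    convert this using 1
    abel
  · simp only [mul_c, mul_v, mul_g, inv_v, inv_c, ← actV_mul, ← actC_mul, h2, map_zero,
      hβ' _ (hJ t.g _ h1), hNC _ hg, map_add, LinearMap.add_apply, hβ _ (hJ t.g _ h1)]
    have e1 := hβ' _ (hNV _ hg t.v) t.v
    rw [map_add] at e1
    have e2 := cc D t.c
    linear_combination (norm := abel) e1 + e2

end Ext
end

/-- positions of the letters of a word -/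
structure Pos (ι : Type) where
  P : Type
  [fin : Fintype P]
  [dec : DecidableEq P]
  h : P → FreeGroup ι
  j : P → ι
  o : P → P → ℕ
  ho : ∀ p q, (o p q + o q p) % 2 = if p = q then 0 else 1

attribute [instance] Pos.fin Pos.dec

/-- the evaluation formula -/
def Pos.Models {ι : Type} (X : Pos ι) (w : FreeGroup ι) : Prop :=
  ∀ (R T V C : Type) [CommRing R] [Group T] [AddCommGroup V] [Module R V]
    [AddCommGroup C] [Module R C] (D : ExtData R T V C) (f : ι → Ext D) (σ : FreeGroup ι →* T),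
    (∀ j, σ (FreeGroup.of j) = (f j).g) →
    (FreeGroup.lift f w).v = ∑ p, D.actV (σ (X.h p)) (f (X.j p)).v ∧
    (FreeGroup.lift f w).c = ∑ p, D.actC (σ (X.h p)) (f (X.j p)).c +
      ∑ p, ∑ q, X.o p q • D.β (D.actV (σ (X.h p)) (f (X.j p)).v)
        (D.actV (σ (X.h q)) (f (X.j q)).v)

theorem exists_pos {ι : Type} (w : FreeGroup ι) : ∃ X : Pos ι, X.Models w := by
  induction w using FreeGroup.induction_on with
  | C1 =>
    refine ⟨⟨Empty, fun p => p.elim, fun p => p.elim, fun p => p.elim, fun p => p.elim⟩, ?_⟩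
    intro R T V C _ _ _ _ _ _ D f σ hσ
    simp
  | of x =>
    refine ⟨⟨Unit, fun _ => 1, fun _ => x, fun _ _ => 0, fun p q => by simp⟩, ?_⟩
    intro R T V C _ _ _ _ _ _ D f σ hσ
    simp
  | inv_of x _ =>
    refine ⟨⟨Unit, fun _ => (FreeGroup.of x)⁻¹, fun _ => x, fun _ _ => 1, fun p q => by simp⟩, ?_⟩
    intro R T V C _ _ _ _ _ _ D f σ hσ
    simp [hσ, D.equiv]
  | mul x y hx hy =>
    obtain ⟨X, hX⟩ := hx
    obtain ⟨Y, hY⟩ := hy
    refine ⟨⟨X.P ⊕ Y.P, Sum.elim X.h (fun q => x * Y.h q), Sum.elim X.j Y.j,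
      Sum.elim (fun p => Sum.elim (X.o p) (fun _ => 1))
        (fun p => Sum.elim (fun _ => 0) (Y.o p)), ?_⟩, ?_⟩
    · rintro (p | p) (q | q)
      · simpa using X.ho p q
      · simp
      · simp
      · simpa using Y.ho p q
    intro R T V C _ _ _ _ _ _ D f σ hσ
    obtain ⟨h1, h2⟩ := hX R T V C D f σ hσ
    obtain ⟨h3, h4⟩ := hY R T V C D f σ hσ
    have hg : (FreeGroup.lift f x).g = σ x := by
      rw [Ext.lift_g]
      have : FreeGroup.lift (fun j => (f j).g) = σ := by ext j; simp [hσ]
      rw [this]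
    constructor
    · simp only [map_mul σ, map_mul (FreeGroup.lift f), Ext.mul_v, h1, h3, hg,
        Fintype.sum_sum_type, Sum.elim_inl, Sum.elim_inr, map_sum, Ext.actV_mul]
    · simp only [map_mul σ, map_mul (FreeGroup.lift f), Ext.mul_c, h1, h2, h3, h4, hg,
        Fintype.sum_sum_type, Sum.elim_inl, Sum.elim_inr, map_sum, Ext.actV_mul, Ext.actC_mul,
        map_add, map_nsmul, D.equiv, zero_smul, one_smul, sum_const_zero, zero_add,
        sum_add_distrib, LinearMap.sum_apply]
      rw [Finset.sum_comm (s := univ) (t := univ)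
        (f := fun (p : X.P) (q : Y.P) => D.β (D.actV (σ (X.h p)) (f (X.j p)).v)
          (D.actV (σ x) (D.actV (σ (Y.h q)) (f (Y.j q)).v)))]
      abel

end Pool.Agent.P.MP_a84a61_al
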