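import Pool.Agent.P.MP_a84a61_al.Test
import Pool.Agent.P.MP_a84a61_al.Ext

set_option autoImplicit false
set_option linter.unusedSectionVars false
set_option linter.unusedSimpArgs false

namespace Pool.Agent.P.MP_a84a61_al

open Finset

variable {ι : Type} [Fintype ι] [DecidableEq ι] {K : Type} [CommRing K] (c2 : ZMod 2 →+* K)
  (X : Pos ι)

/-- the oriented double sum -/
def OO (a a' : X.P → K) (S : FreeGroup ι → FreeGroup ι → ZMod 2) : K :=
  ∑ p, ∑ q, (X.o p q : K) * (a p * a' q) * c2 (S (X.h p) (X.h q))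

/-- functions killed by the first order part -/
def Kill (a : X.P → K) (f : FreeGroup ι → ZMod 2) : Prop := ∑ p, a p * c2 (f (X.h p)) = 0

def HA (a : X.P → K) : Prop :=
  ∀ (ψ ψ' : ι → ZMod 2) (f : FreeGroup ι → ZMod 2),
    (∀ g g', rho ψ g = rho ψ g' → rho ψ' g = rho ψ' g' → f g = f g') → Kill c2 X a f

def HB (a a' : X.P → K) : Prop :=
  ∀ (ψ : ι → ZMod 2) (f : FreeGroup ι → ZMod 2),
    (∀ g g', rho ψ g = rho ψ g' → f g = f g') → OO c2 X a a' (fun g g' => f (g⁻¹ * g')) = 0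

def HC (a : X.P → K) : Prop :=
  ∀ (ψ : ι → ZMod 2) (f : FreeGroup ι → ZMod 2),
    (∀ g g', rho ψ g = rho ψ g' → f g = f g') →
      OO c2 X a a (fun g g' => (1 + (rho ψ g).e) * (rho ψ g').e * f (g⁻¹ * g')) = 0

variable {c2 X}

lemma two_K (c2 : ZMod 2 →+* K) : (2 : K) = 0 := by
  have : (2 : K) = c2 2 := by rw [map_ofNat]
  rw [this, show (2 : ZMod 2) = 0 from rfl, map_zero]

lemma o_add (c2 : ZMod 2 →+* K) (p q : X.P) :
    (X.o p q : K) + (X.o q p : K) = if p = q then 0 else 1 := by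
  have h := X.ho p q
  have h2 := Nat.mod_add_div (X.o p q + X.o q p) 2
  rw [← Nat.cast_add, ← h2, h]
  push_cast
  rw [two_K c2]
  split_ifs <;> simp

lemma OO_add (a a' : X.P → K) (S S' : FreeGroup ι → FreeGroup ι → ZMod 2) :
    OO c2 X a a' (fun g g' => S g g' + S' g g') = OO c2 X a a' S + OO c2 X a a' S' := by
  simp only [OO, map_add, mul_add, sum_add_distrib]

lemma OO_zero (a a' : X.P → K) : OO c2 X a a' (fun _ _ => 0) = 0 := by
  simp [OO]

lemma OO_sum {Y : Type} [Fintype Y] (a a' : X.P → K) (S : Y → FreeGroup ι → FreeGroup ι → ZMod 2) :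
    OO c2 X a a' (fun g g' => ∑ y, S y g g') = ∑ y, OO c2 X a a' (S y) := by
  simp only [OO, map_sum, mul_sum]
  rw [Finset.sum_comm (s := (univ : Finset Y))]
  refine sum_congr rfl fun p _ => ?_
  rw [Finset.sum_comm (s := (univ : Finset Y))]

lemma OO_congr (a a' : X.P → K) {S S' : FreeGroup ι → FreeGroup ι → ZMod 2}
    (h : ∀ g g', S g g' = S' g g') : OO c2 X a a' S = OO c2 X a a' S' := by
  simp only [OO, h]

lemma OO_swap (a a' : X.P → K) (S : FreeGroup ι → FreeGroup ι → ZMod 2)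
    (hk : ∀ g', Kill c2 X a (fun g => S g g'))
    (hd : ∑ p, a p * a' p * c2 (S (X.h p) (X.h p)) = 0) :
    OO c2 X a' a (fun g g' => S g' g) = OO c2 X a a' S := by
  have h2 := two_K c2
  have e1 : ∑ p, ∑ q, (a p * a' q) * c2 (S (X.h p) (X.h q)) = 0 := by
    rw [Finset.sum_comm]
    refine sum_eq_zero fun q _ => ?_
    have := hk (X.h q)
    unfold Kill at this
    calc _ = a' q * ∑ p, a p * c2 (S (X.h p) (X.h q)) := by
            rw [mul_sum]; exact sum_congr rfl fun p _ => by ring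
      _ = 0 := by rw [this, mul_zero]
  have e2 : OO c2 X a' a (fun g g' => S g' g) + OO c2 X a a' S =
      ∑ p, ∑ q, (a p * a' q) * c2 (S (X.h p) (X.h q))
        - ∑ p, a p * a' p * c2 (S (X.h p) (X.h p)) := by
    unfold OO
    rw [Finset.sum_comm, ← sum_add_distrib, ← sum_sub_distrib]
    refine sum_congr rfl fun p _ => ?_
    have : a p * a' p * c2 (S (X.h p) (X.h p)) =
        ∑ q, (if p = q then 1 else 0) * (a p * a' q * c2 (S (X.h p) (X.h q))) := by
      simp [Finset.sum_ite_eq]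
    rw [this, ← sum_add_distrib, ← sum_sub_distrib]
    refine sum_congr rfl fun q _ => ?_
    have := o_add c2 p q
    split_ifs at this ⊢
    · linear_combination (a p * a' q * c2 (S (X.h p) (X.h q))) * this
    · linear_combination (a p * a' q * c2 (S (X.h p) (X.h q))) * this
  rw [e1, hd] at e2
  linear_combination e2 - (OO c2 X a a' S) * h2

lemma OO_norm (a : X.P → K) (S : FreeGroup ι → FreeGroup ι → ZMod 2)
    (hk : ∀ g', Kill c2 X a (fun g => S g g')) (hd : ∀ g, S g g = 0) :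
    OO c2 X a a (fun g g' => S g g' + S g' g) = 0 := by
  rw [OO_add, OO_swap a a S hk (by simp [hd])]
  linear_combination (OO c2 X a a S) * two_K c2

lemma Kill.sum {Y : Type} [Fintype Y] {a : X.P → K} (f : Y → FreeGroup ι → ZMod 2)
    (h : ∀ y, Kill c2 X a (f y)) : Kill c2 X a (fun g => ∑ y, f y g) := by
  unfold Kill at *
  simp only [map_sum, mul_sum]
  rw [Finset.sum_comm]
  exact sum_eq_zero fun y _ => h y

variable {κ : Type} [Fintype κ] [DecidableEq κ] (i1 : κ)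
  (σ : FreeGroup ι →* FreeGroup (Option κ))

lemma kap_kill {a : X.P → K} (hA : HA c2 X a) (τ : FreeGroup ι → FreeGroup (Option κ))
    (hτ : ∀ φ g g', rho (piH σ φ) g = rho (piH σ φ) g' → rho φ (τ g) = rho φ (τ g'))
    (u : (ι → ZMod 2) → ZMod 2) : Kill c2 X a (fun g => u (cl g) * kap i1 (τ g)) := by
  simp only [kap, mul_sum]
  refine Kill.sum _ fun φ => Kill.sum _ fun φ' => hA (piH σ φ) (piH σ φ') _ fun g g' h h' => ?_
  simp only [Fc, map_inv, hτ _ _ _ h, hτ _ _ _ h', cl_eq_of_rho h]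

/-- off diagonal labels -/
lemma off_diag {a a' : X.P → K} (hA : HA c2 X a) (hB : HB c2 X a a') (hd : ∑ p, a p * a' p = 0)
    (g g' : FreeGroup (Option κ)) :
    OO c2 X a a' (fun h h' => kap i1 (g⁻¹ * σ (h⁻¹ * h') * g')) +
      OO c2 X a' a (fun h h' => kap i1 (g'⁻¹ * σ (h⁻¹ * h') * g)) = 0 := by
  have e1 := OO_swap (c2 := c2) a a' (fun h h' => kap i1 (g'⁻¹ * σ (h'⁻¹ * h) * g))
    (fun h' => by
      have := kap_kill i1 σ hA (fun h => g'⁻¹ * σ (h'⁻¹ * h) * g)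
        (fun φ x x' hx => by simp only [map_mul, rho_subst_congr σ hx]) (fun _ => 1)
      simpa only [one_mul] using this)
    (by simp only [inv_mul_cancel, map_one, ← sum_mul, hd, zero_mul])
  rw [e1, ← OO_add]
  have e2 : ∀ h h' : FreeGroup ι, kap i1 (g⁻¹ * σ (h⁻¹ * h') * g') +
      kap i1 (g'⁻¹ * σ (h'⁻¹ * h) * g) = ∑ φ, Fc i1 φ (g⁻¹ * σ (h⁻¹ * h') * g') := by
    intro h h'
    have := star i1 (g⁻¹ * σ (h⁻¹ * h') * g')
    rw [ell] at this
    rw [← this]
    congr 2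
    simp [mul_assoc]
  rw [OO_congr a a' e2, OO_sum]
  refine sum_eq_zero fun φ _ => hB (piH σ φ) (fun m => Fc i1 φ (g⁻¹ * σ m * g')) fun x x' hx => ?_
  simp only [Fc, map_mul, rho_subst_congr σ hx]

lemma symm_norm {a : X.P → K} (hA : HA c2 X a) (ψ ψ' : ι → ZMod 2) (s : FreeGroup ι → ZMod 2)
    (h1 : ∀ m, s m⁻¹ = s m)
    (h2 : ∀ g g', rho ψ g = rho ψ g' → rho ψ' g = rho ψ' g' → s g = s g')
    (h3 : ∀ m, rho ψ m = rho ψ m⁻¹ → s m = 0) :
    OO c2 X a a (fun h h' => s (h⁻¹ * h')) = 0 := by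
  classical
  have := OO_norm (c2 := c2) a
    (fun h h' => s (h⁻¹ * h') * ori (rho ψ (h⁻¹ * h')) (rho ψ (h⁻¹ * h')⁻¹))
    (fun h' => hA ψ ψ' _ fun g g' e e' => by
      rw [h2 (g⁻¹ * h') (g'⁻¹ * h') (by simp [e]) (by simp [e'])]
      simp only [map_mul, map_inv, e])
    (fun g => by simp [ori_self])
  rw [← this]
  refine OO_congr a a fun g g' => ?_
  have e : g'⁻¹ * g = (g⁻¹ * g')⁻¹ := by simp
  rw [e, h1, inv_inv, ← mul_add, ori_add]
  split_ifs with h
  · rw [h3 _ h, zero_mul]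
  · rw [mul_one]

/-- equal classes -/
lemma diag_eq (hc : Fintype.card ι < Fintype.card κ) {a : X.P → K} (hA : HA c2 X a) :
    OO c2 X a a (fun h h' => (if cl (h⁻¹ * h') = 0 then 1 else 0) * kap i1 (σ (h⁻¹ * h'))) = 0 := by
  let s : Sym2 (ι → ZMod 2) → FreeGroup ι → ZMod 2 := fun z m =>
    (if cl m = 0 then 1 else 0) * ∑ φ, ∑ φ', (if s(piH σ φ, piH σ φ') = z then 1 else 0) *
      ori φ φ' * (Fc i1 φ (σ m) * Fc i1 φ' (σ m⁻¹))
  have e1 : ∀ h h' : FreeGroup ι, (if cl (h⁻¹ * h') = 0 then 1 else 0) * kap i1 (σ (h⁻¹ * h')) =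
      ∑ z, s z (h⁻¹ * h') := by
    intro h h'
    generalize h⁻¹ * h' = m
    simp only [s, ← mul_sum]
    congr 1
    rw [Finset.sum_comm]
    refine sum_congr rfl fun φ _ => ?_
    rw [Finset.sum_comm]
    refine sum_congr rfl fun φ' _ => ?_
    simp [Finset.sum_ite_eq]
  rw [OO_congr a a e1, OO_sum]
  refine sum_eq_zero fun z _ => ?_
  induction z using Sym2.ind with
  | h ψ ψ' =>
  refine symm_norm hA ψ ψ' (s s(ψ, ψ')) (fun m => ?_) (fun g g' e e' => ?_) (fun m hm => ?_)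
  · simp only [s, cl_inv, inv_inv]
    split_ifs with hm
    · have := ori_sym (fun φ φ' => if s(piH σ φ, piH σ φ') = s(ψ, ψ') then 1 else 0)
        (fun φ φ' => by rw [Sym2.eq_swap]) (fun φ => Fc i1 φ (σ m)) (fun φ => Fc i1 φ (σ m⁻¹))
        (fun φ => by rw [map_inv]; exact Fc_mul_inv i1 φ _)
      have e0 : ∑ φ, ∑ φ', (if s(piH σ φ, piH σ φ') = s(ψ, ψ') then (1 : ZMod 2) else 0) *
          (Fc i1 φ (σ m) * Fc i1 φ' (σ m⁻¹)) = 0 := by
        refine sum_eq_zero fun φ _ => ?_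
        have := fib' σ hc i1 (m := m⁻¹) (by rwa [cl_inv])
          (fun t => if s(piH σ φ, t) = s(ψ, ψ') then (1 : ZMod 2) else 0)
        calc _ = Fc i1 φ (σ m) * ∑ φ', (if s(piH σ φ, piH σ φ') = s(ψ, ψ') then (1 : ZMod 2)
              else 0) * Fc i1 φ' (σ m⁻¹) := by
              rw [mul_sum]; exact sum_congr rfl fun _ _ => by ring
          _ = 0 := by rw [this, mul_zero]
      rw [e0] at this
      rw [one_mul, one_mul]
      have h2 : (2 : ZMod 2) = 0 := rfl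
      linear_combination this - (∑ φ, ∑ φ', (if s(piH σ φ, piH σ φ') = s(ψ, ψ') then (1 : ZMod 2)
        else 0) * ori φ φ' * (Fc i1 φ (σ m) * Fc i1 φ' (σ m⁻¹))) * h2
    · simp
  · simp only [s, cl_eq_of_rho e]
    congr 1
    refine sum_congr rfl fun φ _ => sum_congr rfl fun φ' _ => ?_
    split_ifs with h
    · have : rho φ (σ g) = rho φ (σ g') ∧ rho φ' (σ g) = rho φ' (σ g') := by
        rcases Sym2.eq_iff.1 h with ⟨h1, h2⟩ | ⟨h1, h2⟩
        · exact ⟨rho_subst_congr σ (by rw [h1, e]), rho_subst_congr σ (by rw [h2, e'])⟩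
        · exact ⟨rho_subst_congr σ (by rw [h1, e']), rho_subst_congr σ (by rw [h2, e])⟩
      simp only [Fc, map_inv, this.1, this.2]
    · simp
  · simp only [s]
    refine mul_eq_zero_of_right _ (sum_eq_zero fun φ _ => sum_eq_zero fun φ' _ => ?_)
    have key : ∀ φ, piH σ φ = ψ → Fc i1 φ (σ m) = 0 ∧ Fc i1 φ (σ m⁻¹) = 0 := by
      intro φ hφ
      have e1 : Fc i1 φ (σ m) = Fc i1 φ (σ m⁻¹) := by
        simp only [Fc, rho_subst_congr σ (φ := φ) (g := m) (g' := m⁻¹) (by rw [hφ, hm])]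
      have e2 := Fc_mul_inv i1 φ (σ m)
      rw [← map_inv, ← e1, mul_self_eq_zero] at e2
      exact ⟨e2, e1 ▸ e2⟩
    split_ifs with h
    · rcases Sym2.eq_iff.1 h with ⟨h1, _⟩ | ⟨_, h2⟩
      · simp [(key φ h1).1]
      · rw [(key φ' h2).2]; simp
    · simp

end Pool.Agent.P.MP_a84a61_al
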