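import Pool.Agent.P.MP_a84a61_al.Diag

set_option autoImplicit false
set_option linter.unusedSectionVars false
set_option linter.unusedSimpArgs false

namespace Pool.Agent.P.MP_a84a61_al

open Finset

variable {ι : Type} [Fintype ι] [DecidableEq ι] {K : Type} [CommRing K] {c2 : ZMod 2 →+* K}
  {X : Pos ι}

lemma cl_quot (h h' : FreeGroup ι) : cl (h⁻¹ * h') = cl h + cl h' := by rw [cl_mul, cl_inv]

lemma cl_ne {h h' : FreeGroup ι} {S : ι → ZMod 2} (hS : S ≠ 0) (H : cl (h⁻¹ * h') = S) :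
    cl h ≠ cl h' := by
  intro e
  rw [cl_quot, e, cube_add_self] at H
  exact hS H.symm

/-- norms on a nonzero class -/
lemma neq_norm {a : X.P → K} (hA : HA c2 X a) (hB : HB c2 X a a) {S : ι → ZMod 2} (hS : S ≠ 0)
    (ψ : ι → ZMod 2) (k : FreeGroup ι → ZMod 2) (hk : ∀ g g', rho ψ g = rho ψ g' → k g = k g') :
    OO c2 X a a (fun h h' => ori (cl h) (cl h') * (if cl (h⁻¹ * h') = S then 1 else 0) *
      (k (h⁻¹ * h') + k (h⁻¹ * h')⁻¹)) = 0 := by
  have e1 := OO_swap (c2 := c2) a a (fun h h' => ori (cl h') (cl h) *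
      (if cl (h⁻¹ * h') = S then 1 else 0) * k (h⁻¹ * h'))
    (fun h' => hA ψ ψ _ fun g g' e _ => by
      rw [hk (g⁻¹ * h') (g'⁻¹ * h') (by simp [e]), cl_quot, cl_quot, cl_eq_of_rho e])
    (by simp [ori_self])
  have e2 := hB ψ (fun m => (if cl m = S then 1 else 0) * k m)
    (fun g g' e => by simp only [hk _ _ e, cl_eq_of_rho e])
  have e3 : ∀ h h' : FreeGroup ι, ori (cl h) (cl h') * (if cl (h⁻¹ * h') = S then 1 else 0) *
      (k (h⁻¹ * h') + k (h⁻¹ * h')⁻¹) =
      ori (cl h) (cl h') * (if cl (h⁻¹ * h') = S then 1 else 0) * k (h⁻¹ * h') +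
      ori (cl h) (cl h') * (if cl (h'⁻¹ * h) = S then 1 else 0) * k (h'⁻¹ * h) := by
    intro h h'
    have : h'⁻¹ * h = (h⁻¹ * h')⁻¹ := by simp
    rw [this, cl_inv]; ring
  rw [OO_congr a a e3, OO_add, e1, ← OO_add, ← e2]
  refine OO_congr a a fun h h' => ?_
  split_ifs with H
  · have := ori_add (cl h) (cl h')
    rw [if_neg (cl_ne hS H)] at this
    linear_combination (k (h⁻¹ * h')) * this
  · simp

/-- functions supported on reflections -/
lemma neq_refl {a : X.P → K} (hA : HA c2 X a) (hC : HC c2 X a) {S : ι → ZMod 2} (hS : S ≠ 0)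
    (ψ : ι → ZMod 2) (k : FreeGroup ι → ZMod 2) (hk : ∀ g g', rho ψ g = rho ψ g' → k g = k g')
    (hψ : ∀ m, cl m = S → (rho ψ m).e = 1) :
    OO c2 X a a (fun h h' => ori (cl h) (cl h') * (if cl (h⁻¹ * h') = S then 1 else 0) *
      k (h⁻¹ * h')) = 0 := by
  have e1 := OO_norm (c2 := c2) a (fun h h' => ori (cl h) (cl h') * (rho ψ h).e *
      (if cl (h⁻¹ * h') = S then 1 else 0) * k (h⁻¹ * h'))
    (fun h' => hA ψ ψ _ fun g g' e _ => by
      rw [hk (g⁻¹ * h') (g'⁻¹ * h') (by simp [e]), cl_quot, cl_quot, cl_eq_of_rho e, e])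
    (by simp [ori_self])
  have e2 := hC ψ (fun m => (if cl m = S then 1 else 0) * k m)
    (fun g g' e => by simp only [hk _ _ e, cl_eq_of_rho e])
  rw [← add_zero (0 : K)]
  nth_rewrite 1 [← e1]
  rw [← e2, ← OO_add]
  refine OO_congr a a fun h h' => ?_
  have e : h'⁻¹ * h = (h⁻¹ * h')⁻¹ := by simp
  rw [e, cl_inv]
  split_ifs with H
  · have h1 := ori_add (cl h) (cl h')
    rw [if_neg (cl_ne hS H)] at h1
    have h2 := hψ _ H
    have h3 : k (h⁻¹ * h')⁻¹ = k (h⁻¹ * h') :=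
      hk _ _ (by rw [map_inv, Dih.inv_of_e_one _ h2])
    rw [map_mul, map_inv, Dih.mul_e, Dih.inv_e] at h2
    rw [h3]
    clear h3
    generalize k (h⁻¹ * h') = u at *
    generalize ori (cl h) (cl h') = r at *
    generalize ori (cl h') (cl h) = r' at *
    generalize (rho ψ h).e = x at *
    generalize (rho ψ h').e = y at *
    revert u r r' x y; decide
  · simp

variable {κ : Type} [Fintype κ] [DecidableEq κ] (i1 : κ)
  (σ : FreeGroup ι →* FreeGroup (Option κ))

lemma diag_neq {a : X.P → K} (hA : HA c2 X a) (hB : HB c2 X a a) (hC : HC c2 X a)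
    {S : ι → ZMod 2} (hS : S ≠ 0) :
    OO c2 X a a (fun h h' => ori (cl h) (cl h') * (if cl (h⁻¹ * h') = S then 1 else 0) *
      ell i1 (σ (h⁻¹ * h'))) = 0 := by
  by_cases hE : ∀ m, cl m = S → cl (σ m) = 0
  swap
  · push Not at hE
    obtain ⟨m0, h0, h1⟩ := hE
    rw [← OO_zero (c2 := c2) a a]
    refine OO_congr a a fun h h' => ?_
    split_ifs with H
    · have : cl (σ (h⁻¹ * h')) ≠ 0 := by rwa [cl_subst_congr σ (H.trans h0.symm)]
      simp only [ell, Fc_of_cl i1 this, sum_const_zero, mul_zero]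
    · simp
  obtain ⟨j0, hj0⟩ : ∃ j0, S j0 = 1 := by
    by_contra hh
    push Not at hh
    apply hS
    funext j
    exact (z2_cases (S j)).resolve_right (hh j)
  let k : (Option κ → ZMod 2) → FreeGroup ι → ZMod 2 := fun φ m =>
    d1 ((rho (piH σ φ) m).a j0) * Fc i1 φ (σ m⁻¹)
  have he : ∀ φ m, cl m = S → (rho (piH σ φ) m).e = 0 := fun φ m hm => by
    rw [← rho_subst_e]; exact e_of_cl (hE m hm) φ
  have key : ∀ m, cl m = S → ell i1 (σ m) =
      ∑ φ, (k φ m + k φ m⁻¹) + ∑ φ, GG σ j0 (piH σ φ + Pi.single j0 1) φ m := by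
    intro m hm
    rw [GG_shift, ← sum_add_distrib]
    refine sum_congr rfl fun φ _ => ?_
    have e1 : GG σ j0 (piH σ φ) φ m = d1 ((rho (piH σ φ) m).a j0) * Ic φ (σ m) := by
      rw [Ic_of_cl_zero (hE m hm)]
      simp only [GG, rho_subst_a]
    simp only [k, inv_inv]
    simp only [map_inv, Fc_inv, e1, Dih.inv_a_of_e_zero _ (he φ m hm), Pi.neg_apply,
      d1_neg, cast_a, hm, hj0]
    generalize d1 _ = u
    generalize Fc i1 φ (σ m) = v
    generalize Ic φ (σ m) = w
    revert u v w; decide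
  have e3 : ∀ h h' : FreeGroup ι, ori (cl h) (cl h') * (if cl (h⁻¹ * h') = S then 1 else 0) *
      ell i1 (σ (h⁻¹ * h')) =
      ∑ φ, ori (cl h) (cl h') * (if cl (h⁻¹ * h') = S then 1 else 0) *
        (k φ (h⁻¹ * h') + k φ (h⁻¹ * h')⁻¹) +
      ∑ φ, ori (cl h) (cl h') * (if cl (h⁻¹ * h') = S then 1 else 0) *
        GG σ j0 (piH σ φ + Pi.single j0 1) φ (h⁻¹ * h') := by
    intro h h'
    rw [← mul_sum, ← mul_sum, ← mul_add]
    split_ifs with H
    · rw [key _ H]
    · simp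
  rw [OO_congr a a e3, OO_add, OO_sum, OO_sum, sum_eq_zero, sum_eq_zero, add_zero]
  · intro φ _
    refine neq_refl hA hC hS (piH σ φ + Pi.single j0 1) _ (fun g g' e => by simp only [GG, e])
      fun m hm => ?_
    have h1 := he φ m hm
    have h2 := map_add (eps m) (piH σ φ) (Pi.single j0 1)
    simp only [eps_apply] at h2
    rw [h2, h1, rho_e, hm]
    simp [Pi.single_apply, hj0]
  · intro φ _
    refine neq_norm hA hB hS (piH σ φ) (k φ) fun g g' e => ?_
    simp only [k, e, Fc, map_inv, rho_subst_congr σ e]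

/-- diagonal labels -/
lemma diag (hc : Fintype.card ι < Fintype.card κ) {a : X.P → K} (hA : HA c2 X a)
    (hB : HB c2 X a a) (hC : HC c2 X a) :
    OO c2 X a a (fun h h' => kap i1 (σ (h⁻¹ * h'))) = 0 := by
  have e1 := OO_swap (c2 := c2) a a (fun h h' => ori (cl h) (cl h') * kap i1 (σ (h'⁻¹ * h)))
    (fun h' => kap_kill i1 σ hA (fun h => σ (h'⁻¹ * h))
        (fun φ x x' hx => by simp only [map_mul, rho_subst_congr σ hx])
        (fun c => ori c (cl h')))
    (by simp [ori_self])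
  have e2 : ∀ h h' : FreeGroup ι, kap i1 (σ (h⁻¹ * h')) =
      (if cl (h⁻¹ * h') = 0 then 1 else 0) * kap i1 (σ (h⁻¹ * h')) +
      (ori (cl h) (cl h') * kap i1 (σ (h⁻¹ * h')) + ori (cl h') (cl h) * kap i1 (σ (h⁻¹ * h'))) := by
    intro h h'
    rw [← add_mul, ori_add, cl_quot]
    by_cases H : cl h = cl h'
    · simp [H, cube_add_self]
    · rw [if_neg H, if_neg]
      · simp
      · intro e
        apply H
        have := cube_add_self (cl h')
        linear_combination e - this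
  rw [OO_congr a a e2, OO_add, diag_eq i1 σ hc hA, zero_add, OO_add, e1, ← OO_add]
  have e3 : ∀ h h' : FreeGroup ι, ori (cl h) (cl h') * kap i1 (σ (h⁻¹ * h')) +
      ori (cl h) (cl h') * kap i1 (σ (h'⁻¹ * h)) =
      ∑ S, ori (cl h) (cl h') * (if cl (h⁻¹ * h') = S then 1 else 0) * ell i1 (σ (h⁻¹ * h')) := by
    intro h h'
    have e : h'⁻¹ * h = (h⁻¹ * h')⁻¹ := by simp
    rw [e, map_inv, ← mul_add, star]
    simp [Finset.sum_ite_eq]
  rw [OO_congr a a e3, OO_sum]
  refine sum_eq_zero fun S _ => ?_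
  by_cases hS : S = 0
  · rw [← OO_zero (c2 := c2) a a]
    refine OO_congr a a fun h h' => ?_
    split_ifs with H
    · have : cl h = cl h' := by
        rw [cl_quot, hS] at H
        have := cube_add_self (cl h')
        linear_combination H - this
      rw [this, ori_self]; simp
    · simp
  · exact diag_neq i1 σ hA hB hC hS

end Pool.Agent.P.MP_a84a61_al
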