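import Pool.Agent.P.MP_a84a61_al.Word
import Pool.Agent.P.MP_a84a61_al.Diag

set_option autoImplicit false
set_option linter.unusedSectionVars false
set_option linter.unusedSimpArgs false

namespace Pool.Agent.P.MP_a84a61_al

open Finset AddMonoidAlgebra

/-- a monomial representation -/
def monoRep {L T I : Type} [CommRing L] [Group T] (m : T → I → L) (p : T → I → I)
    (m1 : ∀ s, m 1 s = 1) (p1 : ∀ s, p 1 s = s)
    (mm : ∀ g h s, m (g * h) s = m g s * m h (p g s))
    (pp : ∀ g h s, p (g * h) s = p h (p g s)) : T →* Module.End L (I → L) where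
  toFun g :=
    { toFun := fun v s => m g s * v (p g s)
      map_add' := fun v w => by funext s; simp [mul_add]
      map_smul' := fun r v => by funext s; simp; ring }
  map_one' := by
    apply LinearMap.ext; intro v; funext s; simp [m1, p1]
  map_mul' g h := by
    apply LinearMap.ext; intro v; funext s; simp [mm, pp, mul_assoc]

/-- product of two representations -/
def prodRep {L T V W : Type} [CommRing L] [Group T] [AddCommGroup V] [Module L V]
    [AddCommGroup W] [Module L W] (ρ : T →* Module.End L V) (ρ' : T →* Module.End L W) :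
    T →* Module.End L (V × W) where
  toFun g := (ρ g).prodMap (ρ' g)
  map_one' := by simp [LinearMap.prodMap_one]
  map_mul' g h := by simp [LinearMap.prodMap_mul]

variable (k A : Type) [Field k] [CharP k 2] [AddCommGroup A]

abbrev TT := Dih A × Dih A × kˣ
abbrev VV := (ZMod 2 → AddMonoidAlgebra k A) × (ZMod 2 × ZMod 2 → AddMonoidAlgebra k A)
abbrev CC := ZMod 2 → AddMonoidAlgebra k A

noncomputable def act1 : TT k A →* Module.End (AddMonoidAlgebra k A) (CC k A) :=
  monoRep (fun g s => single (sgn s • g.1.a) (g.2.2 : k)) (fun g s => s + g.1.e)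
    (fun s => by simp [one_def]) (fun s => by simp)
    (fun g h s => by simp [sgn_add, mul_smul]) (fun g h s => by simp [add_assoc])

noncomputable def act2 : TT k A →*
    Module.End (AddMonoidAlgebra k A) (ZMod 2 × ZMod 2 → AddMonoidAlgebra k A) :=
  monoRep (fun g s => single (sgn s.1 • g.1.a + sgn s.2 • g.2.1.a) (g.2.2 : k))
    (fun g s => (s.1 + g.1.e, s.2 + g.2.1.e))
    (fun s => by simp [one_def]) (fun s => by simp)
    (fun g h s => by
      simp only [Prod.fst_mul, Prod.snd_mul, Dih.mul_a, Units.val_mul, single_mul_single, sgn_add,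
        mul_smul, smul_add]
      congr 1; abel) (fun g h s => by simp [add_assoc])

noncomputable def act3 : TT k A →* Module.End (AddMonoidAlgebra k A) (CC k A) :=
  monoRep (fun g _ => single 0 ((g.2.2 : k) ^ 2)) (fun g s => s + g.1.e)
    (fun s => by simp [one_def]) (fun s => by simp)
    (fun g h s => by simp [mul_pow]) (fun g h s => by simp [add_assoc])

lemma sgn_succ (s : ZMod 2) : sgn (s + 1) = -sgn s := by revert s; decide

lemma two_L : (2 : AddMonoidAlgebra k A) = 0 := by
  have : (2 : AddMonoidAlgebra k A) = algebraMap k _ 2 := by rw [map_ofNat]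
  rw [this, CharTwo.two_eq_zero, map_zero]

/-- the data of the linear group -/
noncomputable def DG : ExtData (AddMonoidAlgebra k A) (TT k A) (VV k A) (CC k A) where
  actV := prodRep (act1 k A) (act2 k A)
  actC := act3 k A
  β := LinearMap.mk₂ _ (fun v w s => v.1 s * w.1 (s + 1))
    (fun _ _ _ => by funext s; simp [add_mul]) (fun _ _ _ => by funext s; simp [mul_assoc])
    (fun _ _ _ => by funext s; simp [mul_add]) (fun _ _ _ => by funext s; simp; ring)
  equiv g v w := by
    funext s
    simp only [act3, act1, monoRep, prodRep, MonoidHom.coe_mk, OneHom.coe_mk, LinearMap.coe_mk,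
      AddHom.coe_mk, LinearMap.mk₂_apply, LinearMap.prodMap_apply]
    rw [mul_mul_mul_comm, single_mul_single, sgn_succ, neg_smul, add_neg_cancel, pow_two,
      add_right_comm s 1]
  two := two_L k A

variable {k A}

lemma DG_V1 (g : TT k A) (v : VV k A) (s : ZMod 2) :
    ((DG k A).actV g v).1 s = single (sgn s • g.1.a) (g.2.2 : k) * v.1 (s + g.1.e) := rfl

lemma DG_V2 (g : TT k A) (v : VV k A) (s : ZMod 2 × ZMod 2) :
    ((DG k A).actV g v).2 s = single (sgn s.1 • g.1.a + sgn s.2 • g.2.1.a) (g.2.2 : k) *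
      v.2 (s.1 + g.1.e, s.2 + g.2.1.e) := rfl

lemma DG_β (v w : VV k A) (s : ZMod 2) : (DG k A).β v w s = v.1 s * w.1 (s + 1) := rfl

lemma DG_faithful (g : TT k A) (h : (DG k A).actV g = 1) : g = 1 := by
  have h1 : ∀ (v : VV k A) s, single (sgn s • g.1.a) (g.2.2 : k) * v.1 (s + g.1.e) = v.1 s :=
    fun v s => by rw [← DG_V1, h]; rfl
  have h2 : ∀ (v : VV k A) (s : ZMod 2 × ZMod 2),
      single (sgn s.1 • g.1.a + sgn s.2 • g.2.1.a) (g.2.2 : k) *
      v.2 (s.1 + g.1.e, s.2 + g.2.1.e) = v.2 s := fun v s => by rw [← DG_V2, h]; rfl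
  have a1 := h1 (fun _ => 1, 0) 0
  have a2 := h2 (0, fun _ => 1) (0, 0)
  simp only [sgn_zero, one_smul, mul_one] at a1 a2
  simp only [one_def, single_inj, one_ne_zero, and_false, or_false] at a1 a2
  have a3 : g.2.1.a = 0 := by simpa [a1.1] using a2.1
  have a4 := h2 (0, fun t => if t = (0, 0) then 1 else 0) (0, 0)
  have a5 : g.1.e = 0 ∧ g.2.1.e = 0 := by
    by_contra hh
    simp only [zero_add, Prod.mk.injEq, if_neg hh, mul_zero, and_self, if_true] at a4
    exact zero_ne_one a4
  ext
  · exact a1.1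
  · exact a5.1
  · exact a3
  · exact a5.2
  · exact a1.2

def pr1 : TT k A →* Dih A := ⟨⟨fun g => g.1, rfl⟩, fun _ _ => rfl⟩
def pr2 : TT k A →* Dih A := ⟨⟨fun g => g.2.1, rfl⟩, fun _ _ => rfl⟩
def pr3 : TT k A →* kˣ := ⟨⟨fun g => g.2.2, rfl⟩, fun _ _ => rfl⟩

lemma r0_TT (p q : TT k A) : r0 p q = 1 := by
  refine Prod.ext ?_ (Prod.ext ?_ ?_)
  · exact (map_r0 pr1 p q).trans (Dih.r0_eq _ _)
  · exact (map_r0 pr2 p q).trans (Dih.r0_eq _ _)
  · exact (map_r0 pr3 p q).trans (r0_comm _ _)

/-- the word is a law of the linear group -/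
theorem law_G {κ : Type} [Fintype κ] [DecidableEq κ] (h3 : ∀ s : kˣ, s ^ 3 = 1)
    (p q z : Ext (DG k A)) (x : κ → Ext (DG k A)) : ww p q z x = 1 := by
  rw [ww_ext _ _ _ _ (r0_TT _ _)]
  generalize (r0 p q).v = v
  refine Ext.ext rfl ?_ rfl
  funext s
  have hM : ∀ m : AddMonoidAlgebra k A, m + m = 0 := add_self_of_two _ (two_L k A)
  let Fn : A → AddMonoidAlgebra k A := fun γ =>
    (single (sgn s • γ) 1 + single (-(sgn s • γ)) 1) * (v.1 s * v.1 (s + 1))
  have e1 : ∀ t : Finset κ × Bool,
      ((DG k A).β ((DG k A).actV (gg z.g (fun i => (x i).g) t) v) v +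
      (DG k A).β v ((DG k A).actV (gg z.g (fun i => (x i).g) t) v)) s =
      Fn (gg z.g.1 (fun i => (x i).g.1) t).a := by
    intro t
    have a1 : (gg z.g (fun i => (x i).g) t).1 = gg z.g.1 (fun i => (x i).g.1) t :=
      map_gg pr1 z.g (fun i => (x i).g) t
    have a2 : (gg z.g (fun i => (x i).g) t).2.2 = 1 :=
      (map_gg pr3 z.g (fun i => (x i).g) t).trans (gg_comm h3 _ _ _)
    simp only [Pi.add_apply, DG_β, DG_V1, a1, a2, Dih.gg_e, add_zero, Units.val_one, sgn_succ,
      neg_smul, Fn]
    ring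
  simp only [Finset.sum_apply, e1]
  rw [Dih.sum_gg hM Fn]
  split_ifs
  · refine sum_eq_zero fun B _ => ?_
    simp only [Fn, smul_neg, neg_neg]
    rw [add_comm (single (-_) _)]
    exact hM _
  · rfl

/-- independence of monomials -/
lemma exists_functional {Y : Type} (γ : Y → A) (pr : Y → Prop) (f : Y → k)
    (h : ∀ y y', pr y → pr y' → γ y = γ y' → f y = f y') :
    ∃ Φ : AddMonoidAlgebra k A →+ k, ∀ y, pr y → ∀ c, Φ (single (γ y) c) = c * f y := by
  classical
  let F : A → k := fun b => if H : ∃ y, pr y ∧ γ y = b then f H.choose else 0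
  refine ⟨(Finsupp.linearCombination k F).toAddMonoidHom.comp coeffAddEquiv.toAddMonoidHom,
    fun y hy c => ?_⟩
  have H : ∃ y', pr y' ∧ γ y' = γ y := ⟨y, hy, rfl⟩
  have : F (γ y) = f y := by
    simp only [F, dif_pos H]
    exact h _ _ H.choose_spec.1 hy H.choose_spec.2
  simp [this]

end Pool.Agent.P.MP_a84a61_al
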