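import Pool.Agent.P.MP_a84a61_al.Info
import Pool.Agent.P.MP_a84a61_al.Diag2

set_option autoImplicit false
set_option linter.unusedSectionVars false
set_option linter.unusedSimpArgs false

namespace Pool.Agent.P.MP_a84a61_al

open Finset

variable {k : Type} [Field k] [CharP k 2] {κ : Type} [Fintype κ] [DecidableEq κ]

/-- left translation -/
noncomputable def mv (k : Type) [Field k] {F : Type} [Group F] (g : F) : Module.End k (F →₀ k) :=
  Finsupp.lmapDomain k k (g * ·)

@[simp] lemma mv_single {F : Type} [Group F] (g h : F) (a : k) :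
    mv k g (Finsupp.single h a) = Finsupp.single (g * h) a := by
  simp [mv]

variable (c2 : ZMod 2 →+* k) (i1 : κ)

noncomputable def lc {F : Type} (f : F → ZMod 2) : (F →₀ k) →ₗ[k] k :=
  Finsupp.linearCombination k fun g => c2 (f g)

@[simp] lemma lc_single {F : Type} (f : F → ZMod 2) (g : F) (a : k) :
    lc c2 f (Finsupp.single g a) = a * c2 (f g) := by
  simp [lc]

noncomputable def bform : (FreeGroup (Option κ) →₀ k) →ₗ[k] (FreeGroup (Option κ) →₀ k) →ₗ[k] k :=
  Finsupp.linearCombination k fun g => lc c2 fun h => kap i1 (g⁻¹ * h)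

lemma bform_single (g h : FreeGroup (Option κ)) (a b : k) :
    bform c2 i1 (Finsupp.single g a) (Finsupp.single h b) = a * b * c2 (kap i1 (g⁻¹ * h)) := by
  simp [bform, mul_assoc]

/-- the data of the test group -/
noncomputable def DT : ExtData k (FreeGroup (Option κ) × kˣ) (FreeGroup (Option κ) →₀ k) k where
  actV :=
    { toFun := fun g => (g.2 : k) • mv k g.1
      map_one' := by ext; simp
      map_mul' := fun g h => by ext : 2; simp [mul_assoc, mul_comm] }
  actC :=
    { toFun := fun g => ((g.2 : k) ^ 2) • LinearMap.id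
      map_one' := by ext; simp
      map_mul' := fun g h => by ext; simp [mul_pow, mul_comm] }
  β := bform c2 i1
  equiv g v w := by
    induction v using Finsupp.induction_linear with
    | zero => simp
    | add x y hx hy => simp only [map_add, LinearMap.add_apply, hx, hy]
    | single x a =>
      induction w using Finsupp.induction_linear with
      | zero => simp
      | add x y hx hy => simp only [map_add, hx, hy]
      | single y b =>
        simp only [MonoidHom.coe_mk, OneHom.coe_mk, LinearMap.smul_apply, mv_single, map_smul,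
          bform_single, smul_eq_mul, LinearMap.id_apply, mul_inv_rev, mul_assoc,
          inv_mul_cancel_left]
        ring
  two := CharTwo.two_eq_zero

lemma DT_actV (g : FreeGroup (Option κ) × kˣ) (x : FreeGroup (Option κ) →₀ k) :
    (DT c2 i1).actV g x = (g.2 : k) • mv k g.1 x := rfl

lemma DT_actC (g : FreeGroup (Option κ) × kˣ) (c : k) :
    (DT c2 i1).actC g c = (g.2 : k) ^ 2 * c := rfl

lemma DT_β : (DT c2 i1).β = bform c2 i1 := rfl

lemma lc_mv {F : Type} [Group F] (f : F → ZMod 2) (g : F) (x : F →₀ k) :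
    lc c2 f (mv k g x) = lc c2 (fun h => f (g * h)) x := by
  induction x using Finsupp.induction_linear with
  | zero => simp
  | add x y hx hy => simp only [map_add, hx, hy]
  | single y b => simp

/-- the submodule killed by all pairs of components -/
def JJ (κ : Type) [DecidableEq κ] : Submodule k (FreeGroup (Option κ) →₀ k) where
  carrier := {x | ∀ (φ φ' : Option κ → ZMod 2) (f : FreeGroup (Option κ) → ZMod 2),
    (∀ g g', rho φ g = rho φ g' → rho φ' g = rho φ' g' → f g = f g') → lc c2 f x = 0}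
  add_mem' hx hy φ φ' f hf := by rw [map_add, hx φ φ' f hf, hy φ φ' f hf, add_zero]
  zero_mem' φ φ' f _ := map_zero _
  smul_mem' c x hx φ φ' f hf := by rw [map_smul, hx φ φ' f hf, smul_zero]

def NN (k κ : Type) [Field k] [DecidableEq κ] : Subgroup (FreeGroup (Option κ) × kˣ) where
  carrier := {g | (∀ φ, rho φ g.1 = 1) ∧ g.2 = 1}
  mul_mem' := by
    rintro a b ⟨h1, h2⟩ ⟨h3, h4⟩
    exact ⟨fun φ => by simp [h1, h3], by simp [h2, h4]⟩
  one_mem' := ⟨fun φ => by simp, rfl⟩
  inv_mem' := by
    rintro a ⟨h1, h2⟩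
    exact ⟨fun φ => by simp [h1], by simp [h2]⟩

instance : (NN k κ).Normal := ⟨by
  rintro a ⟨h1, h2⟩ g
  exact ⟨fun φ => by simp [h1], by simp [h2]⟩⟩

lemma JJ_act (g : FreeGroup (Option κ) × kˣ) (x : FreeGroup (Option κ) →₀ k) (hx : x ∈ JJ c2 κ) :
    (DT c2 i1).actV g x ∈ JJ c2 κ := by
  rw [DT_actV]
  refine Submodule.smul_mem _ _ fun φ φ' f hf => ?_
  rw [lc_mv]
  exact hx φ φ' _ fun y y' h h' => hf _ _ (by simp [h]) (by simp [h'])

lemma lc_sum {F Y : Type} [Fintype Y] (f : Y → F → ZMod 2) (x : F →₀ k) :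
    lc c2 (fun g => ∑ y, f y g) x = ∑ y, lc c2 (f y) x := by
  induction x using Finsupp.induction_linear with
  | zero => simp
  | add x y hx hy => simp only [map_add, hx, hy, sum_add_distrib]
  | single y b => simp [mul_sum]

lemma JJ_kap {x : FreeGroup (Option κ) →₀ k} (hx : x ∈ JJ c2 κ)
    (τ : FreeGroup (Option κ) → FreeGroup (Option κ))
    (hτ : ∀ φ g g', rho φ g = rho φ g' → rho φ (τ g) = rho φ (τ g')) :
    lc c2 (fun g => kap i1 (τ g)) x = 0 := by
  simp only [kap, lc_sum]
  refine sum_eq_zero fun φ _ => sum_eq_zero fun φ' _ => hx φ φ' _ fun g g' h h' => ?_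
  simp only [Fc, map_inv, hτ _ _ _ h, hτ _ _ _ h']

lemma JJ_left (x : FreeGroup (Option κ) →₀ k) (hx : x ∈ JJ c2 κ) (y : FreeGroup (Option κ) →₀ k) :
    (DT c2 i1).β x y = 0 := by
  rw [DT_β]
  induction y using Finsupp.induction_linear with
  | zero => simp
  | add x y hx hy => simp only [map_add, hx, hy, add_zero]
  | single h b =>
    have e : ∀ x, bform c2 i1 x (Finsupp.single h b) = b * lc c2 (fun g => kap i1 (g⁻¹ * h)) x := by
      intro x
      induction x using Finsupp.induction_linear with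
      | zero => simp
      | add x y hx hy => simp only [map_add, LinearMap.add_apply, hx, hy, mul_add]
      | single y a => rw [bform_single, lc_single]; ring
    rw [e, JJ_kap c2 i1 hx (fun g => g⁻¹ * h) (fun φ g g' e => by simp [e]), mul_zero]

lemma JJ_right (x : FreeGroup (Option κ) →₀ k) (hx : x ∈ JJ c2 κ) (y : FreeGroup (Option κ) →₀ k) :
    (DT c2 i1).β y x = 0 := by
  rw [DT_β]
  induction y using Finsupp.induction_linear with
  | zero => simp
  | add x y hx hy => simp only [map_add, LinearMap.add_apply, hx, hy, add_zero]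
  | single h b =>
    simp only [bform, Finsupp.linearCombination_single, LinearMap.smul_apply]
    rw [JJ_kap c2 i1 hx (fun g => h⁻¹ * g) (fun φ g g' e => by simp [e]), smul_zero]

/-- the normal subgroup of the test group -/
noncomputable def MM : Subgroup (Ext (DT c2 i1)) :=
  Ext.nsub (DT c2 i1) (JJ c2 κ) (NN k κ) (JJ_act c2 i1) (JJ_left c2 i1)

instance : (MM c2 i1).Normal :=
  Ext.nsub_normal _ _ _ _ _ (JJ_right c2 i1) (by
    rintro g ⟨h1, h2⟩ y φ φ' f hf
    rw [DT_actV, h2, map_add, Units.val_one, one_smul, lc_mv]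
    have : (fun h => f (g.1 * h)) = f := by
      funext h; exact hf _ _ (by simp [h1]) (by simp [h1])
    rw [this]
    exact CharTwo.add_self_eq_zero _) (by
    rintro g ⟨_, h2⟩ c
    rw [DT_actC, h2]; simp)

section
variable {A : Type} [AddCommGroup A] {ι : Type} [Fintype ι] [DecidableEq ι]
  {e1 e2 : (ι → ℤ) →+ A} {X : Pos ι} {w : FreeGroup ι}

lemma sum_wt (χ : FreeGroup ι →* kˣ) (F : X.P → ι → k) :
    ∑ p, (χ (X.h p) : k) * F p (X.j p) = ∑ i, ∑ p, wt X χ i p * F p i := by
  rw [Finset.sum_comm]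
  refine sum_congr rfl fun p _ => ?_
  simp [wt, Finset.sum_ite_eq]

/-- the bilinear form attached to two labels -/
noncomputable def BG (X : Pos ι) (σ : FreeGroup ι →* FreeGroup (Option κ))
    (χ : FreeGroup ι →* kˣ) (i : ι) (y : FreeGroup (Option κ) →₀ k) (i' : ι)
    (y' : FreeGroup (Option κ) →₀ k) : k :=
  ∑ p, ∑ q, (X.o p q : k) * (wt X χ i p * wt X χ i' q) *
    bform c2 i1 (mv k (σ (X.h p)) y) (mv k (σ (X.h q)) y')

variable (σ : FreeGroup ι →* FreeGroup (Option κ)) (χ : FreeGroup ι →* kˣ)

lemma BG_add_left (i i' : ι) (x y y' : FreeGroup (Option κ) →₀ k) :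
    BG c2 i1 X σ χ i (x + y) i' y' = BG c2 i1 X σ χ i x i' y' + BG c2 i1 X σ χ i y i' y' := by
  simp only [BG, map_add, LinearMap.add_apply, mul_add, sum_add_distrib]

lemma BG_add_right (i i' : ι) (x y y' : FreeGroup (Option κ) →₀ k) :
    BG c2 i1 X σ χ i y' i' (x + y) = BG c2 i1 X σ χ i y' i' x + BG c2 i1 X σ χ i y' i' y := by
  simp only [BG, map_add, mul_add, sum_add_distrib]

lemma BG_single (i i' : ι) (g g' : FreeGroup (Option κ)) (a b : k) :
    BG c2 i1 X σ χ i (Finsupp.single g a) i' (Finsupp.single g' b) =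
      a * b * OO c2 X (wt X χ i) (wt X χ i') (fun h h' => kap i1 (g⁻¹ * σ (h⁻¹ * h') * g')) := by
  simp only [BG, OO, mv_single, bform_single, mul_sum, map_mul σ, map_inv σ, mul_inv_rev,
    mul_assoc]
  refine sum_congr rfl fun p _ => sum_congr rfl fun q _ => ?_
  ring

lemma Setup.wt_mul (H : Setup k A e1 e2 X w) (i i' : ι) : ∑ p, wt X χ i p * wt X χ i' p = 0 := by
  let c2 : ZMod 2 →+* k := ZMod.castHom (dvd_refl 2) k
  have := wt_diag c2 χ i i' (fun _ => 1) (H.hA c2 χ i 0 0 _ fun _ _ _ _ => rfl)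
  simpa using this

lemma Setup.BG_sym (H : Setup k A e1 e2 X w) (i i' : ι) (y y' : FreeGroup (Option κ) →₀ k) :
    BG c2 i1 X σ χ i y i' y' + BG c2 i1 X σ χ i' y' i y = 0 := by
  induction y using Finsupp.induction_linear with
  | zero => simp [BG]
  | add x y hx hy => rw [BG_add_left, BG_add_right]; linear_combination hx + hy
  | single g a =>
    induction y' using Finsupp.induction_linear with
    | zero => simp [BG]
    | add x y hx hy => rw [BG_add_left, BG_add_right]; linear_combination hx + hy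
    | single g' b =>
      rw [BG_single, BG_single]
      have := off_diag i1 σ (H.hA c2 χ i) (H.hB c2 χ i i') (H.wt_mul χ i i') g g'
      linear_combination (a * b) * this

lemma Setup.BG_self (H : Setup k A e1 e2 X w) (hc : Fintype.card ι < Fintype.card κ) (i : ι)
    (y : FreeGroup (Option κ) →₀ k) : BG c2 i1 X σ χ i y i y = 0 := by
  induction y using Finsupp.induction_linear with
  | zero => simp [BG]
  | add x y hx hy =>
    rw [BG_add_left, BG_add_right, BG_add_right]
    linear_combination hx + hy + H.BG_sym c2 i1 σ χ i i x y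
  | single g a =>
    rw [BG_single]
    have := diag i1 ((MulAut.conj g⁻¹).toMonoidHom.comp σ) hc (H.hA c2 χ i) (H.hB c2 χ i i)
      (H.hC c2 χ i)
    simp only [MonoidHom.comp_apply, MulEquiv.coe_toMonoidHom, MulAut.conj_apply, inv_inv] at this
    rw [this, mul_zero]

/-- laws in few variables take values in the normal subgroup -/
theorem Setup.mem (H : Setup k A e1 e2 X w) (hc : Fintype.card ι < Fintype.card κ)
    (f : ι → Ext (DT c2 i1)) : FreeGroup.lift f w ∈ MM c2 i1 := by
  let σ : FreeGroup ι →* FreeGroup (Option κ) := FreeGroup.lift fun j => (f j).g.1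
  let χ : FreeGroup ι →* kˣ := FreeGroup.lift fun j => (f j).g.2
  have hσ : ∀ j, (σ.prod χ) (FreeGroup.of j) = (f j).g := fun j => by simp [σ, χ]
  obtain ⟨h1, h2⟩ := H.hX _ _ _ _ (DT c2 i1) f (σ.prod χ) hσ
  refine ⟨?_, ?_, ?_⟩
  · rw [h1]
    intro φ φ' fn hfn
    simp only [map_sum, DT_actV, map_smul, lc_mv, MonoidHom.prod_apply, smul_eq_mul]
    rw [sum_wt χ (fun p i => lc c2 (fun h => fn (σ (X.h p) * h)) (f i).v)]
    refine sum_eq_zero fun i _ => ?_
    generalize (f i).v = y
    induction y using Finsupp.induction_linear with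
    | zero => simp
    | add x y hx hy => simp only [map_add, mul_add, sum_add_distrib, hx, hy, add_zero]
    | single g b =>
      have := H.hA c2 χ i (piH σ φ) (piH σ φ') (fun h => fn (σ h * g)) fun x x' e e' =>
        hfn _ _ (by simp [rho_subst_congr σ e]) (by simp [rho_subst_congr σ e'])
      unfold Kill at this
      simp only [lc_single]
      calc _ = b * ∑ p, wt X χ i p * c2 (fn (σ (X.h p) * g)) := by
            rw [mul_sum]; exact sum_congr rfl fun p _ => by ring
        _ = 0 := by rw [this, mul_zero]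
  · rw [h2]
    have a1 : ∑ p, (DT c2 i1).actC ((σ.prod χ) (X.h p)) (f (X.j p)).c = 0 := by
      simp only [DT_actC, MonoidHom.prod_apply, pow_two, mul_assoc]
      rw [sum_wt χ (fun p i => (χ (X.h p) : k) * (f i).c)]
      refine sum_eq_zero fun i _ => ?_
      calc _ = (∑ p, wt X χ i p * wt X χ i p) * (f i).c := by
            rw [sum_mul]
            refine sum_congr rfl fun p _ => ?_
            unfold wt
            split_ifs <;> ring
        _ = 0 := by rw [H.wt_mul, zero_mul]
    have a2 : ∑ p, ∑ q, X.o p q • (DT c2 i1).β ((DT c2 i1).actV ((σ.prod χ) (X.h p)) (f (X.j p)).v)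
        ((DT c2 i1).actV ((σ.prod χ) (X.h q)) (f (X.j q)).v) =
        ∑ i, ∑ i', BG c2 i1 X σ χ i (f i).v i' (f i').v := by
      simp only [BG]
      simp only [DT_actV, DT_β, MonoidHom.prod_apply, map_smul, LinearMap.smul_apply, smul_eq_mul,
        nsmul_eq_mul]
      symm
      rw [Finset.sum_congr rfl fun i _ => Finset.sum_comm, Finset.sum_comm]
      refine sum_congr rfl fun p _ => ?_
      rw [Finset.sum_congr rfl fun i _ => Finset.sum_comm, Finset.sum_comm]
      refine sum_congr rfl fun q _ => ?_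
      simp only [wt, ite_mul, mul_ite, zero_mul, mul_zero, Finset.sum_ite_eq, mem_univ, if_true]
      ring
    rw [a1, a2, zero_add]
    exact sum_sym_zero _ (fun i i' => H.BG_sym c2 i1 σ χ i i' _ _)
      (fun i => H.BG_self c2 i1 σ χ hc i _)
  · rw [Ext.lift_g]
    have : FreeGroup.lift (fun j => (f j).g) = σ.prod χ := by
      ext j : 1; rw [hσ]; simp
    rw [this]
    refine ⟨fun φ => ?_, (H.top 0 χ).2⟩
    change rho φ (σ w) = 1
    rw [rho_subst, (H.top _ χ).1, map_one]

end

lemma sum_ell : ∑ t, ell i1 (gg (FreeGroup.of none) (fun i => FreeGroup.of (some i)) t) = 1 := by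
  simp only [ell, Fc, map_gg]
  rw [Finset.sum_comm]
  simp only [Dih.sum_gg z2_add_self (FF i1), rho_of, FF_neg, ← add_assoc, z2_add_self, zero_add]
  have e1 : ∀ B : Finset κ, II (∑ i ∈ B, (6 : ℤ) • (Pi.single (some i) 1 : Option κ → ℤ)) =
      if B = univ then 1 else 0 := by
    intro B
    have e2 : ∀ j, (∑ i ∈ B, (6 : ℤ) • (Pi.single (some i) 1 : Option κ → ℤ)) (some j) =
        if j ∈ B then 6 else 0 := by
      intro j
      simp [Finset.sum_apply, Pi.single_apply]
    rw [II_of_ev]
    · simp only [e2]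
      split_ifs with h
      · subst h
        simp only [mem_univ, if_true]
        exact Finset.prod_eq_one fun _ _ => by decide
      · obtain ⟨j, hj⟩ : ∃ j, j ∉ B := by
          by_contra hh
          push Not at hh
          exact h (eq_univ_of_forall hh)
        refine Finset.prod_eq_zero (mem_univ j) ?_
        rw [if_neg hj]; decide
    · rintro (_ | j)
      · simp [Finset.sum_apply]
      · rw [e2]; split_ifs <;> decide
  simp only [e1, Finset.sum_ite_eq', mem_univ, if_true]
  rw [Finset.sum_eq_single (fun j : Option κ => j.elim 1 fun _ => 0)]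
  · simp
  · intro φ _ hφ
    rw [if_neg]
    rintro ⟨h1, h2⟩
    apply hφ
    funext j
    rcases j with _ | j
    · exact h1
    · exact h2 j
  · simp

/-- the law fails in the test group -/
theorem not_mem (ζ : kˣ) (hζ : ζ ≠ 1) :
    ww (⟨Finsupp.single 1 1, 0, (1, ζ)⟩ : Ext (DT c2 i1)) ⟨0, 0, (1, ζ)⟩
      ⟨0, 0, (FreeGroup.of none, 1)⟩ (fun i => ⟨0, 0, (FreeGroup.of (some i), 1)⟩) ∉ MM c2 i1 := by
  rw [ww_ext _ _ _ _ (by simp [r0, cm])]
  rintro ⟨-, h, -⟩
  have hv : (r0 (⟨Finsupp.single 1 1, 0, (1, ζ)⟩ : Ext (DT c2 i1)) ⟨0, 0, (1, ζ)⟩).v =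
      Finsupp.single 1 ((1 + (ζ : k)) * (1 + (ζ : k) ^ 2)) := by
    simp only [r0, cm, pow_two, Ext.mul_v, Ext.mul_g, Ext.inv_v, Ext.inv_g, map_zero, add_zero,
      ← Ext.actV_mul, mul_inv_cancel_right]
    simp only [DT_actV, Prod.mk_mul_mk, mul_one, mv_single, map_add, map_smul, smul_add,
      Finsupp.smul_single, smul_eq_mul, ← Finsupp.single_add, Units.val_mul]
    congr 1
    ring
  have hg : ∀ t : Finset κ × Bool, gg ((FreeGroup.of none, 1) : FreeGroup (Option κ) × kˣ)
      (fun i => (FreeGroup.of (some i), 1)) t =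
      (gg (FreeGroup.of none) (fun i => FreeGroup.of (some i)) t, 1) := fun t =>
    (map_gg (MonoidHom.inl (FreeGroup (Option κ)) kˣ) (FreeGroup.of none)
      (fun i => FreeGroup.of (some i)) t).symm
  simp only [hv, hg, DT_actV, DT_β, Units.val_one, one_smul, mv_single, bform_single, mul_one,
    inv_one, one_mul, ← mul_add, ← map_add, ← mul_sum] at h
  simp only [add_comm (kap i1 (_)⁻¹), star, ← map_sum, sum_ell, map_one, mul_one] at h
  have h1 : (1 + (ζ : k)) ≠ 0 := by
    intro e
    apply hζ
    ext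
    have h2 : (2 : k) = 0 := CharTwo.two_eq_zero
    rw [Units.val_one]
    linear_combination e - h2
  have h2 : 1 + (ζ : k) ^ 2 = (1 + (ζ : k)) ^ 2 := by
    have h2 : (2 : k) = 0 := CharTwo.two_eq_zero
    linear_combination (-(ζ : k)) * h2
  rw [h2] at h
  simp [h1] at h

end Pool.Agent.P.MP_a84a61_al
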