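import Pool.Agent.P.MP_a84a61_al.GG

set_option autoImplicit false
set_option linter.unusedSectionVars false
set_option linter.unusedSimpArgs false

namespace Pool.Agent.P.MP_a84a61_al

open Finset AddMonoidAlgebra

variable {k A : Type} [Field k] [CharP k 2] [AddCommGroup A] {ι : Type} [Fintype ι] [DecidableEq ι]

/-- the generic substitution in the acting group -/
def subT (e1 e2 : (ι → ℤ) →+ A) (ψ ψ' : ι → ZMod 2) (χ : FreeGroup ι →* kˣ) :
    FreeGroup ι →* TT k A :=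
  ((Dih.map e1).comp (rho ψ)).prod (((Dih.map e2).comp (rho ψ')).prod χ)

/-- the weights -/
def wt (X : Pos ι) (χ : FreeGroup ι →* kˣ) (i : ι) (p : X.P) : k :=
  if X.j p = i then (χ (X.h p) : k) else 0

/-- the standing hypotheses -/
structure Setup (k A : Type) [Field k] [CharP k 2] [AddCommGroup A] (e1 e2 : (ι → ℤ) →+ A)
    (X : Pos ι) (w : FreeGroup ι) : Prop where
  he : ∀ x y x' y', e1 x + e2 y = e1 x' + e2 y' → x = x' ∧ y = y'
  hX : X.Models w
  hw : ∀ f : ι → Ext (DG k A), FreeGroup.lift f w = 1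

variable {e1 e2 : (ι → ℤ) →+ A} {X : Pos ι} {w : FreeGroup ι}

lemma Setup.inj1 (H : Setup k A e1 e2 X w) {x x' : ι → ℤ} (h : e1 x = e1 x') : x = x' :=
  (H.he x 0 x' 0 (by rw [h])).1

lemma Setup.top (H : Setup k A e1 e2 X w) (ψ : ι → ZMod 2) (χ : FreeGroup ι →* kˣ) :
    rho ψ w = 1 ∧ χ w = 1 := by
  have h1 := congrArg Ext.g (H.hw fun j => ⟨0, 0, subT e1 e2 ψ ψ χ (FreeGroup.of j)⟩)
  rw [Ext.lift_g] at h1
  have h2 : FreeGroup.lift (fun j => subT e1 e2 ψ ψ χ (FreeGroup.of j)) = subT e1 e2 ψ ψ χ := by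
    ext j : 1; simp
  simp only [h2] at h1
  have h3 : Dih.map e1 (rho ψ w) = 1 := congrArg Prod.fst h1
  refine ⟨?_, congrArg (fun t => t.2.2) h1⟩
  ext1
  · apply H.inj1
    rw [Dih.one_a, map_zero]
    exact congrArg Dih.a h3
  · exact (congrArg Dih.e h3 :)

lemma Setup.eval (H : Setup k A e1 e2 X w) (ψ ψ' : ι → ZMod 2) (χ : FreeGroup ι →* kˣ)
    (v : ι → VV k A) :
    ∑ p, (DG k A).actV (subT e1 e2 ψ ψ' χ (X.h p)) (v (X.j p)) = 0 ∧
    ∑ p, ∑ q, X.o p q • (DG k A).β ((DG k A).actV (subT e1 e2 ψ ψ' χ (X.h p)) (v (X.j p)))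
      ((DG k A).actV (subT e1 e2 ψ ψ' χ (X.h q)) (v (X.j q))) = 0 := by
  obtain ⟨h1, h2⟩ := H.hX _ _ _ _ (DG k A)
    (fun j => ⟨v j, 0, subT e1 e2 ψ ψ' χ (FreeGroup.of j)⟩) (subT e1 e2 ψ ψ' χ) (fun _ => rfl)
  rw [H.hw] at h1 h2
  refine ⟨h1.symm, ?_⟩
  simpa only [map_zero, sum_const_zero, zero_add, Ext.one_c] using h2.symm

lemma sgn_smul_inj {M : Type} [AddCommGroup M] (s : ZMod 2) {x y : M}
    (h : sgn s • x = sgn s • y) : x = y := by
  have := congrArg (fun t => sgn s • t) h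
  simpa only [← mul_smul, sgn_mul_self, one_smul] using this

variable (c2 : ZMod 2 →+* k)

theorem Setup.hA (H : Setup k A e1 e2 X w) (χ : FreeGroup ι →* kˣ) (i : ι) :
    HA c2 X (wt X χ i) := by
  intro ψ ψ' f hf
  have key : ∀ s : ZMod 2 × ZMod 2, ∑ p, (if (rho ψ (X.h p)).e = s.1 ∧ (rho ψ' (X.h p)).e = s.2
      then 1 else 0) * (wt X χ i p * c2 (f (X.h p))) = 0 := by
    intro s
    obtain ⟨Φ, hΦ⟩ := exists_functional (k := k)
      (fun y => sgn s.1 • e1 (rho ψ y).a + sgn s.2 • e2 (rho ψ' y).a)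
      (fun y => (rho ψ y).e = s.1 ∧ (rho ψ' y).e = s.2) (fun y => c2 (f y)) (by
        intro y y' h1 h2 h3
        rw [← map_zsmul, ← map_zsmul, ← map_zsmul, ← map_zsmul] at h3
        obtain ⟨h4, h5⟩ := H.he _ _ _ _ h3
        rw [hf y y' (Dih.ext (sgn_smul_inj _ h4) (h1.1.trans h2.1.symm))
          (Dih.ext (sgn_smul_inj _ h5) (h1.2.trans h2.2.symm))])
    have h1 := (H.eval ψ ψ' χ fun j => (0, fun t => if j = i ∧ t = (0, 0) then 1 else 0)).1
    have h2 := congrArg (fun v : VV k A => Φ (v.2 s)) h1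
    simp only [Prod.snd_sum, Finset.sum_apply, map_sum, DG_V2, Prod.snd_zero, Pi.zero_apply,
      map_zero] at h2
    refine Eq.trans ?_ h2
    refine sum_congr rfl fun p _ => ?_
    have hz : ∀ x y : ZMod 2, x + y = 0 ↔ y = x := by decide
    change _ = Φ (single (sgn s.1 • e1 (rho ψ (X.h p)).a + sgn s.2 • e2 (rho ψ' (X.h p)).a)
      (χ (X.h p) : k) * if X.j p = i ∧ (s.1 + (rho ψ (X.h p)).e, s.2 + (rho ψ' (X.h p)).e) = (0, 0)
        then 1 else 0)
    simp only [Prod.mk.injEq, hz, wt]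
    by_cases ha : (rho ψ (X.h p)).e = s.1 ∧ (rho ψ' (X.h p)).e = s.2
    · by_cases hb : X.j p = i
      · rw [if_pos ha, if_pos hb, if_pos ⟨hb, ha⟩, mul_one, one_mul, hΦ _ ha]
      · simp [hb]
    · simp [ha]
  have := Finset.sum_eq_zero (s := univ) fun s _ => key s
  rw [Finset.sum_comm] at this
  unfold Kill
  rw [← this]
  refine sum_congr rfl fun p _ => ?_
  rw [← sum_mul, Finset.sum_eq_single ((rho ψ (X.h p)).e, (rho ψ' (X.h p)).e)]
  · simp
  · rintro ⟨s, s'⟩ _ hs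
    rw [if_neg]
    rintro ⟨rfl, rfl⟩
    exact hs rfl
  · simp

/-- the second order part -/
noncomputable def BB (e1 : (ι → ℤ) →+ A) (X : Pos ι) (ψ : ι → ZMod 2) (χ : FreeGroup ι →* kˣ)
    (u u' : ι → ZMod 2 → k) : AddMonoidAlgebra k A :=
  ∑ p, ∑ q, single (e1 ((rho ψ (X.h p)).a - (rho ψ (X.h q)).a))
    ((X.o p q : k) * ((χ (X.h p) : k) * (χ (X.h q) : k)) *
      (u (X.j p) (rho ψ (X.h p)).e * u' (X.j q) (1 + (rho ψ (X.h q)).e)))

lemma Setup.BB_self (H : Setup k A e1 e2 X w) (ψ : ι → ZMod 2) (χ : FreeGroup ι →* kˣ)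
    (u : ι → ZMod 2 → k) : BB e1 X ψ χ u u = 0 := by
  have h1 := (H.eval ψ ψ χ fun j => (fun s => single 0 (u j s), 0)).2
  have h2 := congrFun h1 0
  simp only [Finset.sum_apply, Pi.smul_apply, DG_β, DG_V1, Pi.zero_apply] at h2
  rw [← h2]
  refine sum_congr rfl fun p _ => sum_congr rfl fun q _ => ?_
  change _ = X.o p q • (single (sgn 0 • e1 (rho ψ (X.h p)).a) (χ (X.h p) : k) *
    single 0 (u (X.j p) (0 + (rho ψ (X.h p)).e)) *
    (single (sgn (0 + 1) • e1 (rho ψ (X.h q)).a) (χ (X.h q) : k) *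
      single 0 (u (X.j q) (0 + 1 + (rho ψ (X.h q)).e))))
  simp only [single_mul_single, smul_single, zero_add, sgn_zero, sgn_one, one_smul, add_zero,
    neg_smul, map_sub, nsmul_eq_mul, sub_eq_add_neg, map_add, map_neg]
  congr 1
  ring

lemma Setup.BB_sym (H : Setup k A e1 e2 X w) (ψ : ι → ZMod 2) (χ : FreeGroup ι →* kˣ)
    (u u' : ι → ZMod 2 → k) : BB e1 X ψ χ u u' + BB e1 X ψ χ u' u = 0 := by
  have h1 := H.BB_self ψ χ u
  have h2 := H.BB_self ψ χ u'
  have h3 := H.BB_self ψ χ (u + u')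
  have : BB e1 X ψ χ (u + u') (u + u') = BB e1 X ψ χ u u + BB e1 X ψ χ u' u' +
      (BB e1 X ψ χ u u' + BB e1 X ψ χ u' u) := by
    simp only [BB, ← sum_add_distrib, ← single_add, Pi.add_apply]
    refine sum_congr rfl fun p _ => sum_congr rfl fun q _ => ?_
    congr 1
    ring
  rw [this, h1, h2] at h3
  simpa using h3

lemma Setup.functional (H : Setup k A e1 e2 X w) (ψ : ι → ZMod 2) (f : FreeGroup ι → ZMod 2)
    (hf : ∀ g g', rho ψ g = rho ψ g' → f g = f g') (δ : ZMod 2) :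
    ∃ Φ : AddMonoidAlgebra k A →+ k, ∀ h h' : FreeGroup ι, (rho ψ h).e + (rho ψ h').e = δ → ∀ c,
      ((rho ψ h).e = 0 → Φ (single (e1 ((rho ψ h).a - (rho ψ h').a)) c) = c * c2 (f (h⁻¹ * h'))) ∧
      ((rho ψ h).e = 1 → Φ (single (e1 ((rho ψ h').a - (rho ψ h).a)) c) =
        c * c2 (f (h⁻¹ * h'))) := by
  obtain ⟨Φ, hΦ⟩ := exists_functional (k := k) (fun y => e1 (-(rho ψ y).a))
    (fun y => (rho ψ y).e = δ) (fun y => c2 (f y)) (by
      intro y y' h1 h2 h3
      rw [hf y y' (Dih.ext (neg_injective (H.inj1 h3)) (h1.trans h2.symm))])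
  refine ⟨Φ, fun h h' hδ c => ⟨fun h0 => ?_, fun h0 => ?_⟩⟩
  · rw [← hΦ (h⁻¹ * h') (by simpa using hδ) c]
    congr 3
    simp [h0]; abel
  · rw [← hΦ (h⁻¹ * h') (by simpa using hδ) c]
    congr 3
    simp [h0]; abel

lemma c2_e (x : ZMod 2) : c2 x = if x = 1 then 1 else 0 := by
  rcases z2_cases x with rfl | rfl <;> simp

lemma c2_one_add (x : ZMod 2) : c2 (1 + x) = if x = 0 then 1 else 0 := by
  rcases z2_cases x with rfl | rfl
  · simp
  · rw [z2_add_self]; simp

theorem Setup.hC (H : Setup k A e1 e2 X w) (χ : FreeGroup ι →* kˣ) (i : ι) :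
    HC c2 X (wt X χ i) := by
  intro ψ f hf
  obtain ⟨Φ, hΦ⟩ := H.functional c2 ψ f hf 1
  have h1 := congrArg Φ (H.BB_self ψ χ fun j s => if j = i ∧ s = 0 then 1 else 0)
  simp only [BB, map_sum, map_zero] at h1
  rw [← h1]
  refine sum_congr rfl fun p _ => sum_congr rfl fun q _ => ?_
  simp only [wt, map_mul c2, c2_one_add, c2_e c2 (rho ψ (X.h q)).e]
  rcases z2_cases (rho ψ (X.h p)).e with hp | hp
  · rcases z2_cases (rho ψ (X.h q)).e with hq | hq
    · simp [hp, hq]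
    · rw [(hΦ _ _ (by rw [hp, hq, zero_add]) _).1 hp]
      simp only [hp, hq, z2_add_self, and_true, if_true]
      split_ifs <;> ring
  · simp [hp]

lemma wt_diag (χ : FreeGroup ι →* kˣ) (i i' : ι) (f : FreeGroup ι → ZMod 2)
    (hk : Kill c2 X (wt X χ i) f) : ∑ p, wt X χ i p * wt X χ i' p * c2 (f (X.h p)) = 0 := by
  by_cases h : i = i'
  · subst h
    have := CharTwo.sum_mul_self univ (fun p => wt X χ i p * c2 (f (X.h p)))
    unfold Kill at hk
    rw [hk, mul_zero] at this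
    rw [this]
    refine sum_congr rfl fun p _ => ?_
    rcases z2_cases (f (X.h p)) with hf | hf <;> simp [hf]
  · refine sum_eq_zero fun p _ => ?_
    unfold wt
    split_ifs with h1 h2
    · exact absurd (h1.symm.trans h2) h
    all_goals simp

theorem Setup.hB (H : Setup k A e1 e2 X w) (χ : FreeGroup ι →* kˣ) (i i' : ι) :
    HB c2 X (wt X χ i) (wt X χ i') := by
  intro ψ f hf
  have key : ∀ δ : ZMod 2,
      OO c2 X (wt X χ i) (wt X χ i') (fun g g' => (1 + (rho ψ g).e) *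
        ((if (rho ψ g).e + (rho ψ g').e = δ then 1 else 0) * f (g⁻¹ * g'))) +
      OO c2 X (wt X χ i') (wt X χ i) (fun g' g => (rho ψ g).e *
        ((if (rho ψ g).e + (rho ψ g').e = δ then 1 else 0) * f (g⁻¹ * g'))) = 0 := by
    intro δ
    obtain ⟨Φ, hΦ⟩ := H.functional c2 ψ f hf δ
    have h1 := congrArg Φ (H.BB_sym ψ χ (fun j s => if j = i ∧ s = 0 then 1 else 0)
      (fun j s => if j = i' ∧ s = 1 + δ then 1 else 0))
    simp only [BB, map_sum, map_zero, map_add] at h1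
    rw [← h1]
    congr 1
    · refine sum_congr rfl fun p _ => sum_congr rfl fun q _ => ?_
      simp only [wt, map_mul c2, c2_one_add, apply_ite c2, map_one, map_zero, add_right_inj]
      rcases z2_cases (rho ψ (X.h p)).e with hp | hp
      · by_cases hq : (rho ψ (X.h q)).e = δ
        · rw [(hΦ _ _ (by rw [hp, hq, zero_add]) _).1 hp]
          simp only [hp, hq, zero_add, and_true, if_true]
          split_ifs <;> ring
        · simp [hp, hq]
      · simp [hp]
    · refine sum_congr rfl fun p _ => sum_congr rfl fun q _ => ?_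
      simp only [wt, map_mul c2, c2_e c2 (rho ψ (X.h q)).e, apply_ite c2, map_one, map_zero]
      rcases z2_cases (rho ψ (X.h q)).e with hq | hq
      · simp [hq]
      · by_cases hp : (rho ψ (X.h p)).e = 1 + δ
        · have hδ : (rho ψ (X.h q)).e + (rho ψ (X.h p)).e = δ := by
            rw [hp, hq, ← add_assoc, z2_add_self, zero_add]
          rw [(hΦ _ _ hδ _).2 hq, if_pos hδ]
          simp only [hp, hq, z2_add_self, and_true, if_true]
          split_ifs <;> ring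
        · have hδ : ¬ (rho ψ (X.h q)).e + (rho ψ (X.h p)).e = δ := by
            intro e
            apply hp
            rw [← e, hq, ← add_assoc, z2_add_self, zero_add]
          simp [hp, hδ]
  have hA := H.hA c2 χ i
  have key2 : ∀ δ : ZMod 2, OO c2 X (wt X χ i) (wt X χ i') (fun g g' =>
      (if (rho ψ g).e + (rho ψ g').e = δ then 1 else 0) * f (g⁻¹ * g')) = 0 := by
    intro δ
    have h1 := key δ
    rw [OO_swap (wt X χ i) (wt X χ i') (fun g g' => (rho ψ g).e *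
        ((if (rho ψ g).e + (rho ψ g').e = δ then 1 else 0) * f (g⁻¹ * g')))
      (fun g' => hA ψ ψ _ fun x x' e _ => by
        rw [hf (x⁻¹ * g') (x'⁻¹ * g') (by simp [e]), e])
      (wt_diag c2 χ i i' (fun g => (rho ψ g).e *
        ((if (rho ψ g).e + (rho ψ g).e = δ then 1 else 0) * f (g⁻¹ * g)))
        (hA ψ ψ _ fun x x' e _ => by simp [e])), ← OO_add] at h1
    rw [← h1]
    refine OO_congr _ _ fun g g' => ?_
    rw [← add_mul, add_assoc, z2_add_self, add_zero, one_mul]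
  have := Finset.sum_eq_zero (s := univ) fun δ _ => key2 δ
  rw [← OO_sum] at this
  rw [← this]
  refine OO_congr _ _ fun g g' => ?_
  rw [← sum_mul]
  simp

end Pool.Agent.P.MP_a84a61_al
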