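import Pool.Agent.P.MP_a84a61_al.Gamma

set_option autoImplicit false
set_option linter.unusedSectionVars false
set_option linter.unusedSimpArgs false

namespace Pool.Agent.P.MP_a84a61_al

open Finset

/-- a group with a faithful representation on a finite free module over a domain is linear -/
lemma exists_linear {G L M : Type} [Group G] [CommRing L] [IsDomain L] [AddCommGroup M]
    [Module L M] [Module.Free L M] [Module.Finite L M] (ρ : G →* Module.End L M)
    (hρ : Function.Injective ρ) :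
    ∃ (n : ℕ) (H : Subgroup (Matrix.GeneralLinearGroup (Fin n) (FractionRing L))),
      Nonempty (G ≃* H) := by
  let b := Module.finBasis L M
  let ρ1 : G →* Matrix (Fin (Module.finrank L M)) (Fin (Module.finrank L M)) (FractionRing L) :=
    ((algebraMap L (FractionRing L)).mapMatrix.toMonoidHom.comp
      (LinearMap.toMatrixAlgEquiv b).toMulEquiv.toMonoidHom).comp ρ
  have h1 : Function.Injective ρ1 := by
    intro x y hxy
    apply hρ
    apply (LinearMap.toMatrixAlgEquiv b).injective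
    exact Matrix.map_injective (IsFractionRing.injective L (FractionRing L)) hxy
  have h2 : Function.Injective ρ1.toHomUnits := by
    intro x y hxy
    apply h1
    exact congrArg Units.val hxy
  exact ⟨_, ρ1.toHomUnits.range, ⟨MonoidHom.ofInjective h2⟩⟩

lemma exists_fin (s : FreeGroup ℕ) :
    ∃ n, ∀ m, n ≤ m → ∃ w : FreeGroup (Fin m), FreeGroup.map Fin.val w = s := by
  induction s using FreeGroup.induction_on with
  | C1 => exact ⟨0, fun m _ => ⟨1, map_one _⟩⟩
  | of x => exact ⟨x + 1, fun m hm => ⟨FreeGroup.of ⟨x, hm⟩, by simp⟩⟩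
  | inv_of x h =>
    obtain ⟨n, hn⟩ := h
    refine ⟨n, fun m hm => ?_⟩
    obtain ⟨w, hw⟩ := hn m hm
    exact ⟨w⁻¹, by rw [map_inv, hw]⟩
  | mul x y hx hy =>
    obtain ⟨n, hn⟩ := hx
    obtain ⟨n', hn'⟩ := hy
    refine ⟨max n n', fun m hm => ?_⟩
    obtain ⟨w, hw⟩ := hn m (le_trans (le_max_left _ _) hm)
    obtain ⟨w', hw'⟩ := hn' m (le_trans (le_max_right _ _) hm)
    exact ⟨w * w', by rw [map_mul, hw, hw']⟩

lemma lift_map {G α β : Type} [Group G] (e : α → β) (f : β → G) (w : FreeGroup α) :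
    FreeGroup.lift f (FreeGroup.map e w) = FreeGroup.lift (fun a => f (e a)) w := by
  have : (FreeGroup.lift f).comp (FreeGroup.map e) = FreeGroup.lift (fun a => f (e a)) := by
    ext a; simp
  exact DFunLike.congr_fun this w

/-- extension by zero -/
def emb (m : ℕ) : (Fin m → ℤ) →+ (ℕ → ℤ) where
  toFun x n := if h : n < m then x ⟨n, h⟩ else 0
  map_zero' := by funext n; simp
  map_add' x y := by funext n; simp only [Pi.add_apply]; split_ifs <;> simp

lemma emb_inj (m : ℕ) : Function.Injective (emb m) := by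
  intro x y h
  funext j
  simpa [emb] using congrFun h j.val

abbrev AA := (ℕ → ℤ) × (ℕ → ℤ)

theorem not_fb {k : Type} [Field k] [CharP k 2] (h3 : ∀ s : kˣ, s ^ 3 = 1) (ζ : kˣ) (hζ : ζ ≠ 1)
    (S : Finset (FreeGroup ℕ)) :
    ¬ ∀ w : FreeGroup ℕ, (∀ f : ℕ → Ext (DG k AA), FreeGroup.lift f w = 1) ↔
      w ∈ Subgroup.normalClosure
        {u : FreeGroup ℕ | ∃ φ : FreeGroup ℕ →* FreeGroup ℕ, ∃ s ∈ S, u = φ s} := by
  intro hS
  let c2 : ZMod 2 →+* k := ZMod.castHom (dvd_refl 2) k
  choose nn hnn using exists_fin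
  let m := S.sup nn
  let i1 : Fin (m + 1) := 0
  let θ : ℕ → Ext (DT c2 i1) := fun n => match n with
    | 0 => ⟨Finsupp.single 1 1, 0, (1, ζ)⟩
    | 1 => ⟨0, 0, (1, ζ)⟩
    | 2 => ⟨0, 0, (FreeGroup.of none, 1)⟩
    | n + 3 => if h : n < m + 1 then ⟨0, 0, (FreeGroup.of (some ⟨n, h⟩), 1)⟩ else 1
  let W : FreeGroup ℕ := ww (FreeGroup.of 0) (FreeGroup.of 1) (FreeGroup.of 2)
    (fun i : Fin (m + 1) => FreeGroup.of (i.val + 3))
  have hW := (hS W).1 fun f => by
    rw [map_ww]; exact law_G h3 _ _ _ _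
  have hle : Subgroup.normalClosure
      {u : FreeGroup ℕ | ∃ φ : FreeGroup ℕ →* FreeGroup ℕ, ∃ s ∈ S, u = φ s} ≤
      (MM c2 i1).comap (FreeGroup.lift θ) := by
    apply Subgroup.normalClosure_le_normal
    rintro _ ⟨φ, s, hs, rfl⟩
    have hlaw := (hS s).2 (Subgroup.subset_normalClosure ⟨MonoidHom.id _, s, hs, rfl⟩)
    obtain ⟨w, rfl⟩ := hnn s m (Finset.le_sup hs)
    obtain ⟨X, hX⟩ := exists_pos w
    have H : Setup k AA ((AddMonoidHom.inl _ _).comp (emb m)) ((AddMonoidHom.inr _ _).comp (emb m))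
        X w := by
      refine ⟨fun x y x' y' h => ?_, hX, fun f => ?_⟩
      · simp only [AddMonoidHom.comp_apply, AddMonoidHom.inl_apply, AddMonoidHom.inr_apply,
          Prod.mk_add_mk, add_zero, zero_add, Prod.mk.injEq] at h
        exact ⟨emb_inj m h.1, emb_inj m h.2⟩
      · have := hlaw fun n => if h : n < m then f ⟨n, h⟩ else 1
        rw [lift_map] at this
        simpa using this
    have := H.mem c2 i1 (by simp) fun j => FreeGroup.lift θ (φ (FreeGroup.of j.val))
    change FreeGroup.lift θ (φ (FreeGroup.map Fin.val w)) ∈ MM c2 i1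
    have e : (FreeGroup.lift θ).comp (φ.comp (FreeGroup.map Fin.val)) =
        FreeGroup.lift fun j : Fin m => FreeGroup.lift θ (φ (FreeGroup.of j.val)) := by
      ext j : 1; simp
    rw [← e] at this
    exact this
  have h1 : FreeGroup.lift θ W ∈ MM c2 i1 := hle hW
  apply not_mem c2 i1 ζ hζ
  rw [map_ww] at h1
  simpa only [FreeGroup.lift_apply_of, θ, Fin.is_lt, dif_pos] using h1

theorem main : ∃ (K : Type) (_ : Field K) (n : ℕ)
    (G : Subgroup (Matrix.GeneralLinearGroup (Fin n) K)), ∀ S : Finset (FreeGroup ℕ),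
      ¬ ∀ w : FreeGroup ℕ, (∀ f : ℕ → G, FreeGroup.lift f w = 1) ↔
        w ∈ Subgroup.normalClosure
          {u : FreeGroup ℕ | ∃ φ : FreeGroup ℕ →* FreeGroup ℕ, ∃ s ∈ S, u = φ s} := by
  classical
  let k := GaloisField 2 2
  let _ : Fintype k := Fintype.ofFinite k
  have hc : Fintype.card k = 4 := by
    rw [Fintype.card_eq_nat_card]; exact GaloisField.card 2 2 (by norm_num)
  have hu : Fintype.card kˣ = 3 := by
    rw [Fintype.card_eq_nat_card, Nat.card_units, ← Fintype.card_eq_nat_card, hc]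
  have h3 : ∀ s : kˣ, s ^ 3 = 1 := fun s => by rw [← hu]; exact pow_card_eq_one
  obtain ⟨ζ, hζ⟩ : ∃ ζ : kˣ, ζ ≠ 1 := by
    have : Nontrivial kˣ := Fintype.one_lt_card_iff_nontrivial.1 (by rw [hu]; norm_num)
    exact exists_ne 1
  obtain ⟨n, H, ⟨e⟩⟩ := exists_linear (Ext.rep (DG k AA)) (Ext.rep_injective _ DG_faithful)
  refine ⟨_, inferInstance, n, H, fun S hS => not_fb h3 ζ hζ S fun w => ?_⟩
  rw [← hS w]
  have key : ∀ f : ℕ → Ext (DG k AA), FreeGroup.lift (fun j => e (f j)) w =
      e (FreeGroup.lift f w) := by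
    intro f
    have : FreeGroup.lift (fun j => e (f j)) = e.toMonoidHom.comp (FreeGroup.lift f) := by
      ext j : 1; simp
    rw [this]; rfl
  constructor
  · intro h f
    have := key fun j => e.symm (f j)
    simp only [MulEquiv.apply_symm_apply] at this
    rw [this, h, map_one]
  · intro h f
    apply e.injective
    rw [← key, h, map_one]

end Pool.Agent.P.MP_a84a61_al
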