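import Pool.Agent.P.MP_a84a61_al.Basic

set_option autoImplicit false
set_option linter.unusedSectionVars false
set_option linter.unusedSimpArgs false

namespace Pool.Agent.P.MP_a84a61_al

open Finset

variable {κ : Type} [Fintype κ] [DecidableEq κ]

/-- indicator of even vectors -/
def ev (a : Option κ → ℤ) : ZMod 2 := if ∀ i, (a i : ZMod 2) = 0 then 1 else 0
def II (a : Option κ → ℤ) : ZMod 2 := ev a * ∏ i : κ, d1 (a (some i))
def FF (i1 : κ) (a : Option κ → ℤ) : ZMod 2 := d1 (a (some i1) / 2) * II a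

lemma II_of_not {a : Option κ → ℤ} (h : ¬ ∀ i, (a i : ZMod 2) = 0) : II a = 0 := by
  simp only [II, ev, if_neg h, zero_mul]

lemma II_of_ev {a : Option κ → ℤ} (h : ∀ i, (a i : ZMod 2) = 0) :
    II a = ∏ i : κ, d1 (a (some i)) := by
  simp only [II, ev, if_pos h, one_mul]

lemma II_neg (a : Option κ → ℤ) : II (-a) = II a := by
  by_cases h : ∀ i, (a i : ZMod 2) = 0
  · rw [II_of_ev h, II_of_ev (by simpa using h)]
    simp [d1_neg, h]
  · rw [II_of_not h, II_of_not (by simpa using h)]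

lemma even_of_cast {x : ℤ} (h : (x : ZMod 2) = 0) : ∃ y, x = 2 * y :=
  (ZMod.intCast_zmod_eq_zero_iff_dvd x 2).1 h

lemma FF_neg (i1 : κ) (a : Option κ → ℤ) : FF i1 (-a) = FF i1 a + II a := by
  unfold FF
  rw [II_neg]
  by_cases h : ∀ i, (a i : ZMod 2) = 0
  · obtain ⟨y, hy⟩ := even_of_cast (h (some i1))
    have e1 : a (some i1) / 2 = y := by omega
    have e2 : (-a) (some i1) / 2 = -y := by simp only [Pi.neg_apply]; omega
    rw [e1, e2, d1_neg, II_of_ev h, ← Finset.mul_prod_erase univ _ (mem_univ i1), hy, d1_two_mul]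
    generalize (y : ZMod 2) = u
    generalize d1 y = v
    generalize (∏ x ∈ univ.erase i1, d1 (a (some x))) = w
    revert u v w; decide
  · simp [II_of_not h]

lemma FF_mul_II (i1 : κ) (a : Option κ → ℤ) : FF i1 a * II a = FF i1 a := by
  unfold FF
  generalize II a = u
  generalize d1 _ = v
  revert u v; decide

/-- the test function on the component `φ` -/
def Fc (i1 : κ) (φ : Option κ → ZMod 2) (g : FreeGroup (Option κ)) : ZMod 2 := FF i1 (rho φ g).a
def Ic (φ : Option κ → ZMod 2) (g : FreeGroup (Option κ)) : ZMod 2 := II (rho φ g).a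

lemma e_of_cl {ι : Type} [Fintype ι] [DecidableEq ι] {g : FreeGroup ι} (h : cl g = 0)
    (φ : ι → ZMod 2) : (rho φ g).e = 0 := by
  simp [rho_e, h]

lemma Ic_of_cl {g : FreeGroup (Option κ)} (h : cl g ≠ 0) (φ : Option κ → ZMod 2) :
    Ic φ g = 0 := by
  apply II_of_not
  intro h'
  apply h
  funext i
  rw [← cast_a φ]; exact h' i

lemma Fc_of_cl (i1 : κ) {g : FreeGroup (Option κ)} (h : cl g ≠ 0) (φ : Option κ → ZMod 2) :
    Fc i1 φ g = 0 := by
  have := Ic_of_cl h φ
  unfold Ic at this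
  simp [Fc, FF, this]

lemma Ic_of_cl_zero {g : FreeGroup (Option κ)} (h : cl g = 0) (φ : Option κ → ZMod 2) :
    Ic φ g = ∏ i : κ, d1 ((rho φ g).a (some i)) := by
  apply II_of_ev
  intro i
  rw [cast_a, h]; rfl

lemma Fc_inv (i1 : κ) (φ : Option κ → ZMod 2) (g : FreeGroup (Option κ)) :
    Fc i1 φ g⁻¹ = Fc i1 φ g + Ic φ g := by
  by_cases h : cl g = 0
  · unfold Fc Ic
    rw [map_inv, Dih.inv_a_of_e_zero _ (e_of_cl h φ), FF_neg]
  · rw [Fc_of_cl i1 h, Ic_of_cl h, Fc_of_cl i1 (by rwa [cl_inv])]; rfl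

lemma Fc_mul_Ic (i1 : κ) (φ : Option κ → ZMod 2) (g : FreeGroup (Option κ)) :
    Fc i1 φ g * Ic φ g = Fc i1 φ g := FF_mul_II _ _

lemma Fc_mul_inv (i1 : κ) (φ : Option κ → ZMod 2) (g : FreeGroup (Option κ)) :
    Fc i1 φ g * Fc i1 φ g⁻¹ = 0 := by
  rw [Fc_inv, mul_add, Fc_mul_Ic]
  generalize Fc i1 φ g = u
  revert u; decide

lemma sum_Ic (g : FreeGroup (Option κ)) : ∑ φ, Ic φ g = 0 := by
  by_cases h : cl g = 0
  · simp only [Ic_of_cl_zero h]
    choose c l hl using fun i : κ => QQ.d1_aff (rho_QQ g (some i))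
    simp only [hl]
    exact sum_zero_of_card cube_add_self (AddMonoidHom.pi l)
      (by simpa using Nat.pow_lt_pow_right (by norm_num) (by omega))
      (fun y => ∏ i, (c i + y i))
  · simp [Ic_of_cl h]

def ell (i1 : κ) (g : FreeGroup (Option κ)) : ZMod 2 := ∑ φ, Fc i1 φ g

noncomputable def kap (i1 : κ) (g : FreeGroup (Option κ)) : ZMod 2 :=
  ∑ φ, ∑ φ', ori φ φ' * (Fc i1 φ g * Fc i1 φ' g⁻¹)

lemma ell_inv (i1 : κ) (g : FreeGroup (Option κ)) : ell i1 g⁻¹ = ell i1 g := by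
  simp only [ell, Fc_inv, sum_add_distrib, sum_Ic, add_zero]

/-- symmetrization of an oriented double sum -/
lemma ori_sym {X : Type} [Fintype X] [DecidableEq X] (w : X → X → ZMod 2)
    (hw : ∀ x y, w x y = w y x) (u v : X → ZMod 2) (huv : ∀ x, u x * v x = 0) :
    ∑ x, ∑ y, w x y * ori x y * (u x * v y) + ∑ x, ∑ y, w x y * ori x y * (v x * u y)
      = ∑ x, ∑ y, w x y * (u x * v y) := by
  rw [Finset.sum_comm (f := fun x y => w x y * ori x y * (v x * u y)), ← sum_add_distrib]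
  refine sum_congr rfl fun x _ => ?_
  rw [← sum_add_distrib]
  refine sum_congr rfl fun y _ => ?_
  have := ori_add x y
  rw [hw y x]
  split_ifs at this with h
  · subst h
    linear_combination (w x x * u x * v x) * this - w x x * huv x
  · linear_combination (w x y * u x * v y) * this

lemma star (i1 : κ) (g : FreeGroup (Option κ)) : kap i1 g + kap i1 g⁻¹ = ell i1 g := by
  have := ori_sym (fun _ _ => 1) (fun _ _ => rfl) (fun φ => Fc i1 φ g) (fun φ => Fc i1 φ g⁻¹)
    (fun φ => Fc_mul_inv i1 φ g)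
  simp only [one_mul] at this
  simp only [kap, inv_inv]
  rw [this, ← Finset.sum_mul_sum]
  change ell i1 g * ell i1 g⁻¹ = _
  rw [ell_inv]
  generalize ell i1 g = u
  revert u; decide

section subst
variable {ι : Type} [Fintype ι] [DecidableEq ι] (σ : FreeGroup ι →* FreeGroup (Option κ))

/-- the induced map on components -/
def piH : (Option κ → ZMod 2) →+ (ι → ZMod 2) :=
  AddMonoidHom.pi fun j => eps (σ (FreeGroup.of j))

def bb (φ : Option κ → ZMod 2) (j : ι) : Option κ → ℤ := (rho φ (σ (FreeGroup.of j))).a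

lemma rho_subst (φ : Option κ → ZMod 2) (g : FreeGroup ι) :
    rho φ (σ g) = Dih.map (lin (bb σ φ)) (rho (piH σ φ) g) :=
  factor ((rho φ).comp σ) g

lemma rho_subst_a (φ : Option κ → ZMod 2) (g : FreeGroup ι) (i : Option κ) :
    (rho φ (σ g)).a i = ∑ j, (rho (piH σ φ) g).a j * bb σ φ j i := by
  rw [rho_subst]; simp [lin, Finset.sum_apply]

lemma rho_subst_e (φ : Option κ → ZMod 2) (g : FreeGroup ι) :
    (rho φ (σ g)).e = (rho (piH σ φ) g).e := by
  rw [rho_subst]; rfl

lemma rho_subst_congr {φ : Option κ → ZMod 2} {g g' : FreeGroup ι}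
    (h : rho (piH σ φ) g = rho (piH σ φ) g') : rho φ (σ g) = rho φ (σ g') := by
  rw [rho_subst, rho_subst, h]

lemma cl_subst (g : FreeGroup ι) (i : Option κ) :
    cl (σ g) i = ∑ j, cl g j * cl (σ (FreeGroup.of j)) i := by
  rw [← cast_a 0, rho_subst_a]
  push_cast
  refine sum_congr rfl fun j _ => ?_
  rw [cast_a, bb, cast_a]

lemma cl_subst_congr {g g' : FreeGroup ι} (h : cl g = cl g') : cl (σ g) = cl (σ g') := by
  funext i; rw [cl_subst, cl_subst, h]

lemma bb_QQ (j : ι) (i : Option κ) : (fun φ => bb σ φ j i) ∈ QQ (Option κ → ZMod 2) :=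
  rho_QQ _ _

lemma fib (hc : Fintype.card ι < Fintype.card κ) (i1 : κ) {m : FreeGroup ι} (hm : cl m = 0)
    (ψ : ι → ZMod 2) : ∑ φ, (if piH σ φ = ψ then 1 else 0) * Fc i1 φ (σ m) = 0 := by
  have h2 : ∀ j, ∃ y, (rho ψ m).a j = 2 * y := fun j =>
    even_of_cast (by rw [cast_a, hm]; rfl)
  choose y hy using h2
  have hu : ∀ i, (fun φ => ∑ j, y j * bb σ φ j i) ∈ QQ (Option κ → ZMod 2) := by
    intro i
    have := (QQ _).sum_mem (t := univ)
      (fun j _ => (QQ _).mul_mem (QQ.const (y j)) (bb_QQ σ j i))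
    convert this using 1
    funext φ; simp [Finset.sum_apply]
  choose c hcc using fun i => QQ.d0_const (hu i)
  obtain ⟨c', l, hl⟩ := QQ.d1_aff (hu (some i1))
  have key : ∀ φ, (if piH σ φ = ψ then 1 else 0) * Fc i1 φ (σ m) =
      (fun t : (ι → ZMod 2) × ZMod 2 =>
        (if t.1 = ψ then 1 else 0) * ((c' + t.2) * ∏ i : κ, c (some i)))
        (((piH σ).prod l) φ) := by
    intro φ
    simp only [AddMonoidHom.prod_apply]
    split_ifs with h
    · have e : ∀ i, (rho φ (σ m)).a i = 2 * ∑ j, y j * bb σ φ j i := by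
        intro i
        rw [rho_subst_a, h, mul_sum]
        refine sum_congr rfl fun j _ => ?_
        rw [hy]; ring
      unfold Fc FF
      rw [II_of_ev (fun i => by rw [e]; push_cast; rw [show (2 : ZMod 2) = 0 from rfl, zero_mul])]
      simp only [e, d1_two_mul, hcc]
      rw [Int.mul_ediv_cancel_left _ (by norm_num), hl]
    · simp
  rw [Finset.sum_congr rfl fun φ _ => key φ]
  refine sum_zero_of_card cube_add_self ((piH σ).prod l) ?_ (fun t : (ι → ZMod 2) × ZMod 2 =>
        (if t.1 = ψ then 1 else 0) * ((c' + t.2) * ∏ i : κ, c (some i)))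
  simp only [Fintype.card_prod, Fintype.card_pi, ZMod.card, prod_const, card_univ,
    Fintype.card_option]
  rw [← pow_succ]
  exact Nat.pow_lt_pow_right (by norm_num) (by omega)

lemma fib' (hc : Fintype.card ι < Fintype.card κ) (i1 : κ) {m : FreeGroup ι} (hm : cl m = 0)
    (u : (ι → ZMod 2) → ZMod 2) : ∑ φ, u (piH σ φ) * Fc i1 φ (σ m) = 0 := by
  have : ∀ φ, u (piH σ φ) * Fc i1 φ (σ m) =
      ∑ ψ, u ψ * ((if piH σ φ = ψ then 1 else 0) * Fc i1 φ (σ m)) := by
    intro φ
    simp [Finset.sum_ite_eq]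
  simp only [this]
  rw [Finset.sum_comm]
  simp only [← mul_sum, fib σ hc i1 hm, mul_zero, sum_const_zero]

/-- the auxiliary function for unequal classes -/
def GG (j0 : ι) (ψ : ι → ZMod 2) (φ : Option κ → ZMod 2) (m : FreeGroup ι) : ZMod 2 :=
  d1 ((rho ψ m).a j0) * ∏ i : κ, d1 (∑ j, (rho ψ m).a j * bb σ φ j (some i))

lemma GG_shift (j0 : ι) (m : FreeGroup ι) (e : ι → ZMod 2) :
    ∑ φ, GG σ j0 (piH σ φ + e) φ m = ∑ φ, GG σ j0 (piH σ φ) φ m := by
  let u : Option κ → (ι → ZMod 2) × (Option κ → ZMod 2) → ℤ := fun i y =>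
    i.elim ((rho y.1 m).a j0) fun i => ∑ j, (rho y.1 m).a j * bb σ y.2 j (some i)
  have hu : ∀ i, u i ∈ QQ _ := by
    rintro (_ | i)
    · exact QQ.comp (rho_QQ m j0) (AddMonoidHom.fst (ι → ZMod 2) (Option κ → ZMod 2))
    · have := (QQ _).sum_mem (t := univ)
        (fun j _ => (QQ _).mul_mem (QQ.comp (rho_QQ m j) (AddMonoidHom.fst _ (Option κ → ZMod 2)))
          (QQ.comp (bb_QQ σ j (some i)) (AddMonoidHom.snd (ι → ZMod 2) _)))
      convert this using 1
      funext φ; simp [u, Finset.sum_apply]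
  choose c l hl using fun i => QQ.d1_aff (hu i)
  have key : ∀ ψ φ, GG σ j0 ψ φ m =
      (fun t : Option κ → ZMod 2 => ∏ i, (c i + t i)) (AddMonoidHom.pi l (ψ, φ)) := by
    intro ψ φ
    simp only [AddMonoidHom.pi_apply, ← hl, Fintype.prod_option]
    rfl
  have := sum_shift cube_add_self
    ((AddMonoidHom.pi l).comp ((piH σ).prod (AddMonoidHom.id _))) le_rfl
    (fun t : Option κ → ZMod 2 => ∏ i, (c i + t i)) (AddMonoidHom.pi l (e, 0))
  simp only [key]
  simpa only [AddMonoidHom.comp_apply, AddMonoidHom.prod_apply, AddMonoidHom.id_apply, ← map_add,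
      Prod.mk_add_mk, add_zero] using this

end subst

end Pool.Agent.P.MP_a84a61_al
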