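import Pool.Agent.P.MP_a84a61_al.Ext

set_option autoImplicit false
set_option linter.unusedSectionVars false
set_option linter.unusedSimpArgs false

namespace Pool.Agent.P.MP_a84a61_al

open Finset

variable {κ : Type} [Fintype κ] [DecidableEq κ]

section words
variable {H H' : Type} [Group H] [Group H']

def cm (x y : H) : H := x * y * x⁻¹ * y⁻¹

noncomputable def gA (x : κ → H) (A : Finset κ) : H :=
  ((univ : Finset κ).toList.map fun i => if i ∈ A then x i ^ 6 else 1).prod

noncomputable def cAll (z : H) (x : κ → H) : H :=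
  ((univ : Finset κ).toList.map fun i => cm z (x i ^ 3)).prod

noncomputable def gg (z : H) (x : κ → H) (t : Finset κ × Bool) : H :=
  gA x t.1 * (if t.2 then cAll z x else 1)

def r0 (p q : H) : H := cm (p ^ 2) (q ^ 2)

noncomputable def ru (p q z : H) (x : κ → H) : H :=
  ((univ : Finset (Finset κ × Bool)).toList.map fun t => gg z x t * r0 p q * (gg z x t)⁻¹).prod

/-- the law -/
noncomputable def ww (p q z : H) (x : κ → H) : H := cm (ru p q z x) (r0 p q)

lemma map_cm (φ : H →* H') (x y : H) : φ (cm x y) = cm (φ x) (φ y) := by simp [cm]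

lemma map_gg (φ : H →* H') (z : H) (x : κ → H) (t : Finset κ × Bool) :
    φ (gg z x t) = gg (φ z) (fun i => φ (x i)) t := by
  simp only [gg, gA, cAll, map_mul, map_list_prod, List.map_map, apply_ite φ, map_one]
  congr 1
  · congr 2
    funext i; simp [apply_ite φ]
  · congr 3
    funext i; simp [map_cm]

lemma map_r0 (φ : H →* H') (p q : H) : φ (r0 p q) = r0 (φ p) (φ q) := by simp [r0, map_cm]

lemma map_ww (φ : H →* H') (p q z : H) (x : κ → H) :
    φ (ww p q z x) = ww (φ p) (φ q) (φ z) (fun i => φ (x i)) := by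
  simp only [ww, map_cm, map_r0, ru, map_list_prod, List.map_map]
  congr 3
  funext t; simp [map_gg, map_r0]

end words

lemma gg_comm {H : Type} [CommGroup H] (h3 : ∀ s : H, s ^ 3 = 1) (z : H) (x : κ → H)
    (t : Finset κ × Bool) : gg z x t = 1 := by
  have h6 : ∀ s : H, s ^ 6 = 1 := fun s => by rw [show 6 = 3 * 2 from rfl, pow_mul, h3, one_pow]
  simp [gg, gA, cAll, cm, h3, h6]

lemma r0_comm {H : Type} [CommGroup H] (p q : H) : r0 p q = 1 := by
  simp [r0, cm]

section ext
variable {R T V C : Type} [CommRing R] [Group T] [AddCommGroup V] [Module R V]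
    [AddCommGroup C] [Module R C] {D : ExtData R T V C}

lemma ww_ext (p q z : Ext D) (x : κ → Ext D) (h : r0 p.g q.g = 1) :
    ww p q z x = ⟨0, ∑ t, (D.β (D.actV (gg z.g (fun i => (x i).g) t) (r0 p q).v) (r0 p q).v +
      D.β (r0 p q).v (D.actV (gg z.g (fun i => (x i).g) t) (r0 p q).v)), 1⟩ := by
  have h0 : (r0 p q).g = 1 := by rw [← h]; exact map_r0 (Ext.top D) p q
  have hg : ∀ t, (gg z x t).g = gg z.g (fun i => (x i).g) t := fun t => map_gg (Ext.top D) z x t
  obtain ⟨h1, h2⟩ := Ext.list_prod ((univ : Finset (Finset κ × Bool)).toList.map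
    fun t => gg z x t * r0 p q * (gg z x t)⁻¹) (by
      intro y hy
      obtain ⟨t, _, rfl⟩ := List.mem_map.1 hy
      simp [h0])
  have h3 : (ru p q z x).v = ∑ t, D.actV (gg z.g (fun i => (x i).g) t) (r0 p q).v := by
    rw [ru, h2, List.map_map, ← Finset.sum_map_toList]
    congr 2
    funext t
    simp only [Function.comp_apply]
    rw [Ext.conj_v _ _ h0, hg]
  rw [ww, cm, Ext.comm_eq (ru p q z x) _ h1 h0, h3, map_sum, map_sum, LinearMap.sum_apply, sum_add_distrib]

end ext

section dih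
variable {A : Type} [AddCommGroup A]

lemma Dih.list_prod (l : List (Dih A)) (h : ∀ x ∈ l, x.e = 0) :
    l.prod.e = 0 ∧ l.prod.a = (l.map fun x => x.a).sum := by
  induction l with
  | nil => simp
  | cons a l ih =>
    have ha := h a (by simp)
    obtain ⟨h1, h2⟩ := ih (fun x hx => h x (by simp [hx]))
    simp [ha, h1, h2]

lemma Dih.sq_e (x : Dih A) : (x ^ 2).e = 0 := by simp [pow_two, z2_add_self]

lemma Dih.r0_eq (p q : Dih A) : r0 p q = 1 := by
  ext
  · simp [r0, cm, Dih.sq_e]
  · simp [r0, cm, Dih.sq_e]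

lemma Dih.six_e (x : Dih A) : (x ^ 6).e = 0 := by
  rw [show 6 = 3 * 2 from rfl, pow_mul, Dih.sq_e]

lemma Dih.three_e (x : Dih A) : (x ^ 3).e = x.e := by
  rw [pow_succ, Dih.mul_e, Dih.sq_e, zero_add]

lemma Dih.three_a (x : Dih A) (h : x.e = 0) : (x ^ 3).a = (3 : ℤ) • x.a := by
  simp only [pow_succ, pow_zero, one_mul, Dih.mul_a, Dih.mul_e, h, add_zero, sgn_zero, one_smul]
  module

lemma Dih.six_a (x : Dih A) : (x ^ 6).a = if x.e = 0 then (6 : ℤ) • x.a else 0 := by
  rw [show 6 = 3 * 2 from rfl, pow_mul, pow_two, Dih.mul_a, Dih.three_e]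
  rcases z2_cases x.e with h | h
  · rw [Dih.three_a _ h, h]; simp; module
  · rw [h]; simp

lemma Dih.cm_e (x y : Dih A) : (cm x y).e = 0 := by
  simp only [cm, Dih.mul_e, Dih.inv_e]
  generalize x.e = u
  generalize y.e = v
  revert u v; decide

lemma Dih.cm_a (x y : Dih A) (h : y.e = 0) : (cm x y).a = (sgn x.e - 1) • y.a := by
  rcases z2_cases x.e with hx | hx
  · simp [cm, h, hx]
  · simp only [cm, Dih.mul_a, Dih.mul_e, Dih.inv_a, Dih.inv_e, h, hx, add_zero, z2_add_self,
      sgn_one, sgn_zero]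
    module

lemma Dih.gA_spec (x : κ → Dih A) (B : Finset κ) :
    (gA x B).e = 0 ∧ (gA x B).a = ∑ i ∈ B, (x i ^ 6).a := by
  obtain ⟨h1, h2⟩ := Dih.list_prod ((univ : Finset κ).toList.map
    fun i => if i ∈ B then x i ^ 6 else 1) (by
      intro y hy
      obtain ⟨t, _, rfl⟩ := List.mem_map.1 hy
      split_ifs
      · exact Dih.six_e _
      · rfl)
  refine ⟨h1, ?_⟩
  rw [gA, h2, List.map_map, Finset.sum_map_toList]
  simp only [Function.comp_apply, apply_ite Dih.a, Dih.one_a]
  rw [Finset.sum_ite_mem, univ_inter]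

lemma Dih.cAll_spec (z : Dih A) (x : κ → Dih A) :
    (cAll z x).e = 0 ∧ (cAll z x).a = ∑ i, (cm z (x i ^ 3)).a := by
  obtain ⟨h1, h2⟩ := Dih.list_prod ((univ : Finset κ).toList.map
    fun i => cm z (x i ^ 3)) (by
      intro y hy
      obtain ⟨t, _, rfl⟩ := List.mem_map.1 hy
      exact Dih.cm_e _ _)
  refine ⟨h1, ?_⟩
  rw [cAll, h2, List.map_map, Finset.sum_map_toList]
  rfl

lemma Dih.gg_e (z : Dih A) (x : κ → Dih A) (t : Finset κ × Bool) : (gg z x t).e = 0 := by
  simp only [gg, Dih.mul_e, (Dih.gA_spec x t.1).1]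
  split_ifs
  · simp [(Dih.cAll_spec z x).1]
  · simp

lemma Dih.sum_gg {M : Type} [AddCommGroup M] (hM : ∀ m : M, m + m = 0) (Fn : A → M)
    (z : Dih A) (x : κ → Dih A) :
    ∑ t, Fn (gg z x t).a = if z.e = 1 ∧ ∀ i, (x i).e = 0 then
      ∑ B : Finset κ, (Fn (∑ i ∈ B, (6 : ℤ) • (x i).a) + Fn (-∑ i ∈ B, (6 : ℤ) • (x i).a))
      else 0 := by
  have e1 : ∑ t, Fn (gg z x t).a = ∑ B : Finset κ, Fn (∑ i ∈ B, (x i ^ 6).a) +
      ∑ B : Finset κ, Fn (∑ i ∈ B, (x i ^ 6).a + ∑ i, (cm z (x i ^ 3)).a) := by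
    rw [Fintype.sum_prod_type, ← sum_add_distrib]
    refine sum_congr rfl fun B _ => ?_
    simp [gg, (Dih.gA_spec x B).1, (Dih.gA_spec x B).2, (Dih.cAll_spec z x).2, add_comm]
  rw [e1]
  by_cases hx : ∀ i, (x i).e = 0
  · have e2 : ∀ i, (x i ^ 6).a = (6 : ℤ) • (x i).a := fun i => by rw [Dih.six_a, if_pos (hx i)]
    have e3 : ∀ i, (cm z (x i ^ 3)).a = (sgn z.e - 1) • (3 : ℤ) • (x i).a := fun i => by
      rw [Dih.cm_a _ _ (by rw [Dih.three_e, hx]), Dih.three_a _ (hx i)]
    simp only [e2, e3]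
    rcases z2_cases z.e with hz | hz
    · simp [hz, hM]
    · rw [if_pos ⟨hz, hx⟩, sum_add_distrib]
      congr 1
      refine Fintype.sum_bijective (fun B : Finset κ => Bᶜ) compl_bijective _ _ fun B => ?_
      congr 1
      rw [← Finset.sum_add_sum_compl B, hz, sgn_one, ← add_assoc, ← sum_add_distrib,
        ← sum_neg_distrib, sum_eq_zero, zero_add]
      · exact sum_congr rfl fun i _ => by module
      · intro i _; module
  · rw [if_neg (fun h => hx h.2)]
    push Not at hx
    obtain ⟨i0, hi0⟩ := hx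
    have key : ∀ b : A, ∑ B : Finset κ, Fn (∑ i ∈ B, (x i ^ 6).a + b) = 0 := by
      intro b
      have h0 : (x i0 ^ 6).a = 0 := by rw [Dih.six_a, if_neg hi0]
      refine Finset.sum_involution (fun B _ => if i0 ∈ B then B.erase i0 else insert i0 B)
        (fun B _ => ?_) (fun B _ _ => ?_) (fun B _ => mem_univ _) (fun B _ => ?_)
      · split_ifs with h
        · rw [← Finset.add_sum_erase B _ h, h0, zero_add, hM]
        · rw [Finset.sum_insert h, h0, zero_add, hM]
      · split_ifs with h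
        · intro e; rw [← e] at h; simp at h
        · intro e; rw [← e] at h; simp at h
      · by_cases h : i0 ∈ B
        · simp [h, Finset.insert_erase h]
        · simp [h, Finset.erase_insert h]
    have k0 := key 0
    simp only [add_zero] at k0
    rw [k0, key, add_zero]

end dih

end Pool.Agent.P.MP_a84a61_al
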